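import Mathlib
import Pool.Agent.MP_b3fb72_lc.Defs
import Pool.Agent.Lib.PosetForcing.Basic

-- part MP_b3fb72_lc.Setup
section

/-! Ground-model types: the ordinals below `λ⁺` for `λ = ℶ_ω`, and the index set of coordinates. -/

set_option autoImplicit false

open Cardinal Ordinal Set

namespace Pool.Agent.MP_b3fb72_lc

noncomputable def LL : Cardinal.{0} := ℶ_ ω

lemma beth_lt_LL (n : ℕ) : ℶ_ n < LL := beth_lt_beth.mpr (natCast_lt_omega0 n)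

lemma exists_beth {c : Cardinal.{0}} (h : c < LL) : ∃ n : ℕ, c < ℶ_ n := by
  rw [LL, beth_limit isSuccLimit_omega0] at h
  obtain ⟨⟨a, ha⟩, h2⟩ := (lt_ciSup_iff' Cardinal.bddAbove_of_small).mp h
  obtain ⟨n, rfl⟩ := lt_omega0.mp ha
  exact ⟨n, h2⟩

lemma aleph0_lt_LL : ℵ₀ < LL := by simpa using beth_lt_LL 0

lemma LL_inf : ℵ₀ ≤ LL := aleph0_lt_LL.le

lemma two_pow_lt_LL {c : Cardinal.{0}} (h : c < LL) : 2 ^ c < LL :=
  (isStrongLimit_beth.mpr isSuccLimit_omega0.isSuccPrelimit).isStrongPrelimit h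

/-- The ordinals below `λ⁺`. -/
def O : Type := (Order.succ LL).ord.ToType

noncomputable instance : LinearOrder O := inferInstanceAs (LinearOrder (Order.succ LL).ord.ToType)
instance : WellFoundedLT O := inferInstanceAs (WellFoundedLT (Order.succ LL).ord.ToType)

lemma mk_O : #O = Order.succ LL := mk_ord_toType _

noncomputable def ov (x : O) : Ordinal.{0} := (ToType.mk.symm x).1

lemma ov_lt {x y : O} : ov x < ov y ↔ x < y := (ToType.mk.symm.lt_iff_lt (x := x) (y := y))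

lemma ov_inj {x y : O} (h : ov x = ov y) : x = y :=
  ToType.mk.symm.injective (Subtype.ext h)

lemma exists_ov {a : Ordinal.{0}} (h : a.card ≤ LL) : ∃ x, ov x = a :=
  ⟨ToType.mk ⟨a, lt_ord.mpr (Order.lt_succ_of_le h)⟩, congrArg Subtype.val
    (ToType.mk.symm_apply_apply _)⟩

lemma mk_Iio (x : O) : #(Iio x) = (ov x).card :=
  (card_typein (r := ((· < ·) : O → O → Prop)) x).symm

lemma mk_Iio_le (x : O) : #(Iio x) ≤ LL := by
  rw [mk_Iio, ← Order.lt_succ_iff, ← lt_ord]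
  exact (ToType.mk.symm x).2

lemma bdd (s : Set O) (h : #s ≤ LL) : ∃ b, ∀ a ∈ s, a < b := by
  rw [← not_isCofinal_iff]
  intro hs
  have h1 := Order.cof_le hs
  have h2 : Order.cof O = Order.succ LL :=
    (cof_toType _).trans (isRegular_succ LL_inf).cof_ord
  rw [h2] at h1
  exact (Order.lt_succ LL).not_ge (h1.trans h)

instance : NoMaxOrder O := ⟨fun a => by
  obtain ⟨b, hb⟩ := bdd {a} (by simpa using one_le_aleph0.trans LL_inf)
  exact ⟨b, hb a rfl⟩⟩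

noncomputable def lam : O := (exists_ov (a := LL.ord) (by simp)).choose

lemma ov_lam : ov lam = LL.ord := (exists_ov (a := LL.ord) (by simp)).choose_spec

instance : Nonempty O := ⟨lam⟩

abbrev Lam : Type := Iio lam

lemma mk_Lam : #Lam = LL := by rw [mk_Iio, ov_lam, card_ord]

lemma lt_lam {x : O} : x < lam ↔ #(Iio x) < LL := by rw [← ov_lt, ov_lam, lt_ord, mk_Iio]

instance : Infinite Lam := by rw [← aleph0_le_mk_iff, mk_Lam]; exact LL_inf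

/-- `l` is an increasing cofinal sequence in `a`. -/
def Lad0 (a : O) (l : ℕ → O) : Prop := StrictMono l ∧ (∀ n, l n < a) ∧ ∀ b < a, ∃ n, b < l n

lemma exists_card {c : Cardinal.{0}} (h : c < LL) : ∃ x < lam, #(Iio x) = c := by
  obtain ⟨x, hx⟩ := exists_ov (a := c.ord) (by simpa using h.le)
  have : #(Iio x) = c := by rw [mk_Iio, hx, card_ord]
  exact ⟨x, lt_lam.mpr (this ▸ h), this⟩

lemma lad_lam : ∃ l, Lad0 lam l := by
  choose l h1 h2 using fun n : ℕ => exists_card (beth_lt_LL n)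
  have key : ∀ b (n : ℕ), #(Iio b) < ℶ_ n → b < l n := fun b n h => by
    by_contra h3
    exact h.not_ge (h2 n ▸ mk_le_mk_of_subset (Iio_subset_Iio (not_lt.mp h3)))
  refine ⟨l, fun m n h => key _ _ ?_, h1, fun b hb => ?_⟩
  · rw [h2]; exact beth_lt_beth.mpr (by exact_mod_cast h)
  · obtain ⟨n, hn⟩ := exists_beth (lt_lam.mp hb)
    exact ⟨n, key _ _ hn⟩

lemma exists_nat : ∃ (ν : ℕ → O) (w : O), w < lam ∧ (∀ x, x < w ↔ ∃ n, x = ν n) ∧
    ∀ n x, x < ν n ↔ ∃ k < n, x = ν k := by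
  choose ν h using fun n : ℕ => exists_ov (a := n) (by simpa using natCast_le_aleph0.trans LL_inf)
  obtain ⟨w, hw⟩ := exists_ov (a := ω) (by simpa using LL_inf)
  refine ⟨ν, w, by rw [lt_lam, mk_Iio, hw]; simpa using aleph0_lt_LL, fun x => ?_, fun n x => ?_⟩
  · rw [← ov_lt, hw, lt_omega0]
    exact exists_congr fun n => ⟨fun e => ov_inj (by rw [e, h]), fun e => by rw [e, h]⟩
  · rw [← ov_lt, h]
    constructor
    · intro h1
      obtain ⟨k, hk⟩ := lt_omega0.mp (h1.trans (natCast_lt_omega0 n))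
      exact ⟨k, by rw [hk] at h1; exact_mod_cast h1, ov_inj (by rw [hk, h])⟩
    · rintro ⟨k, hk, rfl⟩
      rw [h]; exact_mod_cast hk

lemma exists_inj {X : Type} (h : #X ≤ LL) : ∃ f : X → Lam, Function.Injective f := by
  rw [← mk_Lam] at h
  obtain ⟨f⟩ := h
  exact ⟨f, f.injective⟩

lemma pieces {X : Type} (s : Set X) (h : #s ≤ LL) :
    ∃ t : ℕ → Set X, Monotone t ∧ (∀ n, #(t n) < LL) ∧ ∀ x ∈ s, ∃ n, x ∈ t n := by
  obtain ⟨f, hf⟩ := exists_inj h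
  obtain ⟨l, h1, h2, h3⟩ := lad_lam
  refine ⟨fun n => Subtype.val '' {x : s | (f x).1 < l n}, fun m n hmn => image_mono fun x hx =>
    lt_of_lt_of_le hx (h1.monotone hmn), fun n => ?_, fun x hx => ?_⟩
  · refine mk_image_le.trans_lt (lt_of_le_of_lt ?_ (lt_lam.mp (h2 n)))
    exact mk_le_of_injective (f := fun x => ⟨(f x.1).1, x.2⟩) fun x y e =>
      Subtype.ext (hf (Subtype.ext (Subtype.mk.inj e)))
  · obtain ⟨n, hn⟩ := h3 _ (f ⟨x, hx⟩).2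
    exact ⟨n, ⟨x, hx⟩, hn, rfl⟩

/-- colours: for each block and height an injection -/
lemma exists_col : ∃ c : ℕ → Lam → O → O → Lam, ∀ i η γ x i' η' γ' x', x < γ → x' < γ' →
    c i η γ x = c i' η' γ' x' → i = i' ∧ η = η' ∧ (γ = γ' → x = x') := by
  classical
  choose f hf using fun γ : O => exists_inj (mk_Iio_le γ)
  obtain ⟨g, hg⟩ := exists_inj (X := ℕ × Lam × Lam) (by
    simp [mk_Lam, mul_eq_self LL_inf, aleph0_mul_eq LL_inf])
  refine ⟨fun i η γ x => if h : x < γ then g (i, η, f γ ⟨x, h⟩) else η, ?_⟩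
  intro i η γ x i' η' γ' x' h h' e
  simp only [h, h', dif_pos] at e
  have := hg e
  simp only [Prod.mk.injEq] at this
  refine ⟨this.1, this.2.1, ?_⟩
  rintro rfl
  exact congrArg Subtype.val (hf _ this.2.2)

abbrev N : Type := Set (Set Lam)

/-- The coordinates. -/
def K : Type := (2 ^ #N : Cardinal).ord.ToType

noncomputable instance : LinearOrder K := inferInstanceAs (LinearOrder (2 ^ #N : Cardinal).ord.ToType)
instance : WellFoundedLT K := inferInstanceAs (WellFoundedLT (2 ^ #N : Cardinal).ord.ToType)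

lemma mk_K : #K = 2 ^ #N := mk_ord_toType _

lemma bddK (s : Set K) (h : #s ≤ #N) : ∃ b, ∀ a ∈ s, a < b := by
  rw [← not_isCofinal_iff]
  intro hs
  have h1 := Order.cof_le hs
  have h2 : Order.cof K = (2 ^ #N : Cardinal).ord.cof := cof_toType _
  rw [h2] at h1
  exact (lt_cof_ord_power (aleph0_le_mk N) one_lt_two).not_ge (h1.trans h)

lemma mk_IicK (a : K) : #(Iic a) < #K :=
  mk_Iic_lt a (by rw [mk_K]; exact (type_toType _).symm)
    (by rw [mk_K]; exact (aleph0_le_mk N).trans (cantor _).le)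

lemma exists_book {X : Type} [Nonempty X] (h : #X ≤ #K) :
    ∃ nm : K → X, ∀ x a, ∃ b, a < b ∧ nm b = x := by
  have hK : ℵ₀ ≤ #K := by rw [mk_K]; exact (aleph0_le_mk N).trans (cantor _).le
  have : Nonempty K := mk_ne_zero_iff.mp (aleph0_pos.trans_le hK).ne'
  have h2 : #(X × K) ≤ #K := by
    simpa using (mul_le_mul_left h _).trans (mul_eq_self hK).le
  obtain ⟨f⟩ := h2
  let g := Function.invFun f
  refine ⟨fun b => (g b).1, fun x a => ?_⟩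
  by_contra h0
  push Not at h0
  refine (mk_IicK a).not_ge (mk_le_of_injective (f := fun k => ⟨f (x, k), ?_⟩) ?_)
  · by_contra h1
    exact h0 _ (not_le.mp h1) (by simp only [g]; rw [Function.leftInverse_invFun f.injective])
  · intro k k' e
    have := f.injective (congrArg Subtype.val e)
    simpa using this

lemma rec_exists {I X : Type} [LinearOrder I] [WellFoundedLT I]
    (Q : ∀ i : I, (∀ j, j < i → X) → X → Prop) [Nonempty X]
    (h : ∀ i (x : ∀ j, j < i → X),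
      (∀ j (hj : j < i), Q j (fun k hk => x k (hk.trans hj)) (x j hj)) → ∃ y, Q i x y) :
    ∃ x : I → X, ∀ i, Q i (fun j _ => x j) (x i) := by
  let x : I → X := (wellFounded_lt (α := I)).fix fun i ih => Classical.epsilon (Q i ih)
  have hx : ∀ i, x i = Classical.epsilon (Q i fun j _ => x j) := fun i =>
    (wellFounded_lt (α := I)).fix_eq _ i
  refine ⟨x, fun i => ?_⟩
  induction i using (wellFounded_lt (α := I)).induction with
  | _ i ih =>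
    rw [hx]
    exact Classical.epsilon_spec (h i _ fun j hj => ih j hj)

end Pool.Agent.MP_b3fb72_lc

end

-- part MP_b3fb72_lc.Poset
section

/-! The forcing notion. -/

set_option autoImplicit false
set_option linter.unusedSectionVars false

open Cardinal Set

namespace Pool.Agent.MP_b3fb72_lc

@[ext] structure Base where
  γ : O
  s : Set O
  g : O → Set Lam

structure Pre where
  b : Base
  W : Set K
  F : K → O → Lam

def BLe (c b : Base) : Prop :=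
  b.γ ≤ c.γ ∧ (∀ α ≤ b.γ, α ∈ c.s ↔ α ∈ b.s) ∧ ∀ x < b.γ, c.g x = b.g x

def FLe (A : Set K) (q p : Pre) : Prop :=
  ∀ ζ ∈ p.W, ζ ∈ A → ζ ∈ q.W ∧ ∀ x < p.b.γ, q.F ζ x = p.F ζ x

def LeOn (A : Set K) (q p : Pre) : Prop := BLe q.b p.b ∧ FLe A q p

abbrev Le0 (q p : Pre) : Prop := LeOn univ q p

lemma BLe.refl (b : Base) : BLe b b := ⟨le_rfl, fun _ _ => Iff.rfl, fun _ _ => rfl⟩

lemma BLe.trans {a b c : Base} (h : BLe a b) (h' : BLe b c) : BLe a c :=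
  ⟨h'.1.trans h.1, fun α hα => (h.2.1 α (hα.trans h'.1)).trans (h'.2.1 α hα),
    fun x hx => (h.2.2 x (hx.trans_le h'.1)).trans (h'.2.2 x hx)⟩

lemma FLe.refl (A : Set K) (p : Pre) : FLe A p p := fun _ h _ => ⟨h, fun _ _ => rfl⟩

lemma FLe.trans {A : Set K} {p q r : Pre} (h : FLe A r q) (h' : FLe A q p) (hγ : p.b.γ ≤ q.b.γ) :
    FLe A r p := fun ζ h1 h2 =>
  ⟨(h ζ (h' ζ h1 h2).1 h2).1, fun x hx =>
    ((h ζ (h' ζ h1 h2).1 h2).2 x (hx.trans_le hγ)).trans ((h' ζ h1 h2).2 x hx)⟩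

lemma FLe.mono {A A' : Set K} {p q : Pre} (h : FLe A q p) (hA : A' ⊆ A) : FLe A' q p :=
  fun ζ h1 h2 => h ζ h1 (hA h2)

lemma LeOn.refl (A : Set K) (p : Pre) : LeOn A p p := ⟨BLe.refl _, FLe.refl _ _⟩

lemma LeOn.trans {A : Set K} {p q r : Pre} (h : LeOn A r q) (h' : LeOn A q p) : LeOn A r p :=
  ⟨h.1.trans h'.1, h.2.trans h'.2 h'.1.1⟩

lemma LeOn.mono {A A' : Set K} {p q : Pre} (h : LeOn A q p) (hA : A' ⊆ A) : LeOn A' q p :=
  ⟨h.1, h.2.mono hA⟩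

lemma LeOn.on {p q : Pre} (h : Le0 q p) (A : Set K) : LeOn A q p := h.mono (subset_univ _)

lemma LeOn.univ {A : Set K} {p q : Pre} (h : LeOn A q p) (hA : p.W ⊆ A) : Le0 q p :=
  ⟨h.1, fun ζ h1 _ => h.2 ζ h1 (hA h1)⟩

def BasB (b : Base) : Prop := ∀ α ∈ b.s, α ≤ b.γ ∧ ∃ l, Lad0 α l

def Bas (p : Pre) : Prop := #p.W ≤ LL ∧ BasB p.b

abbrev Code : Type := Base × {A : Set (K × (O → Lam)) // #A ≤ LL}

def Below (r : Pre) (c : Code) : Prop :=
  BLe r.b c.1 ∧ ∀ z ∈ c.2.1, z.1 ∈ r.W ∧ ∀ x < c.1.γ, r.F z.1 x = z.2 x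

abbrev Cls : Type := Base × (Lam → N) × (Set Lam → O → Lam)

abbrev Name : Type := O → Cls → Option (Code × (ℕ → O))

section card

lemma pow_le_two_pow {a b m : Cardinal.{0}} (hm : ℵ₀ ≤ m) (ha : a ≤ 2 ^ m) (hb : b ≤ m) :
    a ^ b ≤ 2 ^ m := by
  calc a ^ b ≤ (2 ^ m) ^ b := power_le_power_right ha
    _ ≤ (2 ^ m) ^ m := power_le_power_left (power_ne_zero _ two_ne_zero) hb
    _ = 2 ^ m := by rw [← power_mul, mul_eq_self hm]

lemma mul_le_of {a b m : Cardinal.{0}} (hm : ℵ₀ ≤ m) (ha : a ≤ m) (hb : b ≤ m) : a * b ≤ m :=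
  (mul_le_mul' ha hb).trans (mul_eq_self hm).le

lemma mk_N : #N = 2 ^ (2 ^ LL : Cardinal) := by rw [mk_set, mk_set, mk_Lam]

lemma O_le : #O ≤ 2 ^ LL := by rw [mk_O]; exact Order.succ_le_of_lt (cantor _)

lemma inf1 : ℵ₀ ≤ 2 ^ LL := LL_inf.trans (cantor _).le

lemma inf2 : ℵ₀ ≤ #N := aleph0_le_mk N

lemma LL_le_N : LL ≤ #N := by rw [mk_N]; exact (cantor _).le.trans (cantor _).le

lemma O_le_N : #O ≤ #N := by rw [mk_N]; exact O_le.trans (cantor _).le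

lemma mk_fun : #(O → Lam) ≤ #N := by
  rw [mk_N, ← power_def, mk_Lam]
  exact pow_le_two_pow inf1 ((cantor _).le.trans (cantor _).le) O_le

lemma mk_Base : #Base ≤ #N := by
  have : #Base ≤ #(O × Set O × (O → Set Lam)) :=
    mk_le_of_injective (f := fun b => (b.γ, b.s, b.g)) fun a b e => by
      simp only [Prod.mk.injEq] at e
      exact Base.ext e.1 e.2.1 e.2.2
  refine this.trans ?_
  simp only [mk_prod, lift_id]
  refine mul_le_of inf2 O_le_N (mul_le_of inf2 ?_ ?_)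
  · rw [mk_set, mk_N]; exact power_le_power_left (by simp) O_le
  · rw [mk_N, ← power_def, mk_set, mk_Lam]
    exact pow_le_two_pow inf1 (cantor _).le O_le

lemma mk_Cls : #Cls ≤ #N := by
  simp only [mk_prod, lift_id]
  refine mul_le_of inf2 mk_Base (mul_le_of inf2 ?_ ?_)
  · rw [← power_def, mk_Lam, mk_N]
    exact pow_le_two_pow inf1 le_rfl (cantor _).le
  · rw [← power_def, mk_set, mk_Lam]
    exact (power_le_power_right mk_fun).trans (by rw [mk_N]; exact pow_le_two_pow inf1 le_rfl le_rfl)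

lemma mk_Name : #Name ≤ #K := by
  have h3 : ℵ₀ ≤ 2 ^ #N := inf2.trans (cantor _).le
  have hN : #N ≤ 2 ^ #N := (cantor _).le
  rw [← power_def, ← power_def, mk_K]
  refine pow_le_two_pow inf2 (pow_le_two_pow inf2 ?_ mk_Cls) O_le_N
  simp only [mk_option, mk_prod, lift_id]
  refine add_le_of_le h3 (mul_le_of h3 (mul_le_of h3 (mk_Base.trans hN) ?_) ?_)
    (one_le_aleph0.trans h3)
  · refine (mk_bounded_set_le _ _).trans (pow_le_two_pow inf2 (max_le ?_ h3) LL_le_N)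
    simp only [mk_prod, lift_id]
    exact mul_le_of h3 mk_K.le (mk_fun.trans hN)
  · rw [← power_def]
    exact pow_le_two_pow inf2 (O_le_N.trans hN) (by simpa using inf2)

end card

noncomputable def nm : K → Name := (exists_book mk_Name).choose

lemma nm_spec (x : Name) (a : K) : ∃ b, a < b ∧ nm b = x := (exists_book mk_Name).choose_spec x a

def Dec (ξ : K) (r : Pre) (α : O) (l : ℕ → O) : Prop :=
  ∃ a c, nm ξ α a = some (c, l) ∧ Below r c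

def EvInj (f : O → Lam) (l : ℕ → O) : Prop := ∃ n, ∀ i j, n ≤ i → i < j → f (l i) ≠ f (l j)

def GA (ξ : K) (P : Pre → Prop) (p : Pre) (α : O) : Prop :=
  ∀ r, P r → LeOn (Iio ξ) r p → ∀ l, Lad0 α l → Dec ξ r α l →
    (∀ r', P r' → Le0 r' r → ∀ l', Dec ξ r' α l' → l' = l) → EvInj (p.F ξ) l

def PB : K → Pre → Prop := (wellFounded_lt (α := K)).fix fun ξ ih r =>
  Bas r ∧ ∀ ζ ∈ r.W, ∃ h : ζ < ξ, ∀ α ∈ r.b.s, GA ζ (ih ζ h) r α

def G (ξ : K) (p : Pre) (α : O) : Prop := GA ξ (PB ξ) p α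

/-- conditions -/
def PP (p : Pre) : Prop := Bas p ∧ ∀ ζ ∈ p.W, ∀ α ∈ p.b.s, G ζ p α

lemma PB_iff {ξ : K} {r : Pre} : PB ξ r ↔ PP r ∧ r.W ⊆ Iio ξ := by
  rw [PB, WellFounded.fix_eq]
  exact ⟨fun h => ⟨⟨h.1, fun ζ h1 => (h.2 ζ h1).2⟩, fun ζ h1 => (h.2 ζ h1).1⟩,
    fun h => ⟨h.1.1, fun ζ h1 => ⟨h.2 h1, h.1.2 ζ h1⟩⟩⟩

lemma G.mono {ξ : K} {p q : Pre} {α : O} (h : G ξ p α) (hα : α ≤ p.b.γ) (h1 : LeOn (Iio ξ) q p)
    (h2 : ∀ x < p.b.γ, q.F ξ x = p.F ξ x) : G ξ q α := by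
  intro r hr hrq l hl hd hp
  obtain ⟨n, hn⟩ := h r hr (hrq.trans h1) l hl hd hp
  refine ⟨n, fun i j h3 h4 => ?_⟩
  rw [h2 _ ((hl.2.1 i).trans_le hα), h2 _ ((hl.2.1 j).trans_le hα)]
  exact hn i j h3 h4

lemma G.of_le {ξ : K} {p q : Pre} {α : O} (hp : PP p) (hξ : ξ ∈ p.W) (hα : α ∈ p.b.s)
    (h1 : LeOn (Iic ξ) q p) : G ξ q α :=
  (hp.2 ξ hξ α hα).mono (hp.1.2 α hα).1 (h1.mono Iio_subset_Iic_self) (h1.2 ξ hξ self_mem_Iic).2

lemma evInj_of {f : O → Lam} {α β : O} {l : ℕ → O} (hl : Lad0 α l) (h : β < α)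
    (hf : InjOn f (Ico β α)) : EvInj f l := by
  obtain ⟨n, hn⟩ := hl.2.2 β h
  refine ⟨n, fun i j h1 h2 e => (hl.1 h2).ne (hf ⟨?_, hl.2.1 i⟩ ⟨?_, hl.2.1 j⟩ e)⟩
  · exact hn.le.trans (hl.1.monotone h1)
  · exact hn.le.trans (hl.1.monotone (h1.trans h2.le))

lemma G.of_inj {ξ : K} {q : Pre} {α β : O} (h : β < α) (hf : InjOn (q.F ξ) (Ico β α)) :
    G ξ q α := fun _ _ _ _ hl _ _ => evInj_of hl h hf

open Classical in
/-- `r` on `A`, followed by `p` extended by the colouring `e`. -/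
noncomputable def amalg (A : Set K) (r p : Pre) (e : O → Lam) : Pre :=
  ⟨r.b, (r.W ∩ A) ∪ (p.W \ A), fun ζ => if ζ ∈ A then r.F ζ else
    fun x => if x < p.b.γ then p.F ζ x else e x⟩

lemma amalg_le_left (A : Set K) (r p : Pre) (e : O → Lam) : LeOn A (amalg A r p e) r :=
  ⟨BLe.refl _, fun ζ h1 h2 => ⟨Or.inl ⟨h1, h2⟩, fun x _ => by simp [amalg, h2]⟩⟩

lemma amalg_le_right {A : Set K} {r p : Pre} (e : O → Lam) (h : LeOn A r p) :
    Le0 (amalg A r p e) p := by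
  refine ⟨h.1, fun ζ h1 _ => ?_⟩
  by_cases h2 : ζ ∈ A
  · exact ⟨Or.inl ⟨(h.2 ζ h1 h2).1, h2⟩, fun x hx => by
      simpa [amalg, h2] using (h.2 ζ h1 h2).2 x hx⟩
  · exact ⟨Or.inr ⟨h1, h2⟩, fun x hx => by simp [amalg, h2, hx]⟩

lemma union_le {X : Type} {s t : Set X} (hs : #s ≤ LL) (ht : #t ≤ LL) : #(s ∪ t : Set X) ≤ LL :=
  (mk_union_le _ _).trans (add_le_of_le LL_inf hs ht)

lemma amalg_G {A : Set K} {r p : Pre} {e : O → Lam} {ζ : K} (hζ : ζ ∉ A) {α : O}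
    (hα : p.b.γ < α) (hα2 : α ≤ r.b.γ) (he : InjOn e (Ico p.b.γ r.b.γ)) :
    G ζ (amalg A r p e) α := by
  refine G.of_inj hα fun x hx y hy e => he ⟨hx.1, hx.2.trans_le hα2⟩ ⟨hy.1, hy.2.trans_le hα2⟩ ?_
  simpa [amalg, hζ, hx.1.not_gt, hy.1.not_gt] using e

lemma amalg_PP' {A : Set K} (hA : IsLowerSet A) {r p : Pre} {e : O → Lam} (hr : PP r)
    (hp : #p.W ≤ LL) (he : InjOn e (Ico p.b.γ r.b.γ))
    (hG : ∀ ζ ∈ p.W, ζ ∉ A → ∀ α ∈ r.b.s, α ≤ p.b.γ → G ζ (amalg A r p e) α) :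
    PP (amalg A r p e) := by
  refine ⟨⟨union_le ((mk_le_mk_of_subset inter_subset_left).trans hr.1.1)
    ((mk_le_mk_of_subset sdiff_subset).trans hp), hr.1.2⟩, ?_⟩
  rintro ζ (⟨h1, h2⟩ | ⟨h1, h2⟩) α hα
  · exact G.of_le hr h1 hα ((amalg_le_left A r p e).mono (hA.Iic_subset h2))
  · by_cases h3 : α ≤ p.b.γ
    · exact hG ζ h1 h2 α hα h3
    · exact amalg_G h2 (not_le.mp h3) (hr.1.2 α hα).1 he

lemma amalg_PP {A : Set K} (hA : IsLowerSet A) {r p : Pre} {e : O → Lam} (hr : PP r) (hp : PP p)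
    (h : LeOn A r p) (he : InjOn e (Ico p.b.γ r.b.γ)) : PP (amalg A r p e) :=
  amalg_PP' hA hr hp.1.1 he fun _ h1 _ α hα h3 =>
    G.of_le hp h1 ((h.1.2.1 α h3).mp hα) ((amalg_le_right e h).on _)

lemma exists_e (γ : O) : ∃ e : O → Lam, InjOn e (Iio γ) := by
  obtain ⟨c, hc⟩ := exists_col
  obtain ⟨η⟩ : Nonempty Lam := inferInstance
  exact ⟨c 0 η γ, fun x hx y hy e => (hc _ _ _ _ _ _ _ _ hx hy e).2.2 rfl⟩

lemma exists_amalg {A : Set K} (hA : IsLowerSet A) {r p : Pre} (hr : PP r) (hp : PP p)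
    (h : LeOn A r p) : ∃ q, PP q ∧ Le0 q p ∧ LeOn A q r := by
  obtain ⟨e, he⟩ := exists_e r.b.γ
  exact ⟨_, amalg_PP hA hr hp h (he.mono Ico_subset_Iio_self), amalg_le_right e h,
    amalg_le_left _ _ _ _⟩

/-- restriction -/
def res (A : Set K) (p : Pre) : Pre := ⟨p.b, p.W ∩ A, p.F⟩

lemma res_le (A : Set K) (p : Pre) : LeOn A (res A p) p :=
  ⟨BLe.refl _, fun _ h1 h2 => ⟨⟨h1, h2⟩, fun _ _ => rfl⟩⟩

lemma le_res (A : Set K) (p : Pre) : Le0 p (res A p) :=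
  ⟨BLe.refl _, fun _ h1 _ => ⟨h1.1, fun _ _ => rfl⟩⟩

lemma res_PP {A : Set K} (hA : IsLowerSet A) {p : Pre} (hp : PP p) : PP (res A p) :=
  ⟨⟨(mk_le_mk_of_subset inter_subset_left).trans hp.1.1, hp.1.2⟩, fun _ h _ hα =>
    G.of_le hp h.1 hα ((res_le A p).mono (hA.Iic_subset h.2))⟩

lemma PP_base {b : Base} (hb : BasB b) (F : K → O → Lam) : PP ⟨b, ∅, F⟩ :=
  ⟨⟨by simp, hb⟩, fun _ h => h.elim⟩

/-- changing only the base -/
lemma exists_base {p : Pre} (hp : PP p) {b : Base} (hb : BasB b) (h : BLe b p.b) :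
    ∃ q, PP q ∧ Le0 q p ∧ q.b = b := by
  obtain ⟨e, he⟩ := exists_e b.γ
  have h1 : LeOn ∅ ⟨b, ∅, p.F⟩ p := ⟨h, fun _ _ h => h.elim⟩
  exact ⟨_, amalg_PP isLowerSet_empty (PP_base hb _) hp h1 (he.mono Ico_subset_Iio_self),
    amalg_le_right e h1, rfl⟩

lemma exists_high {p : Pre} (hp : PP p) (β : O) : ∃ q, PP q ∧ Le0 q p ∧ β < q.b.γ := by
  obtain ⟨γ, hγ⟩ := exists_gt (max β p.b.γ)
  rw [max_lt_iff] at hγ
  obtain ⟨q, h1, h2, h3⟩ := exists_base hp (b := ⟨γ, p.b.s, p.b.g⟩)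
    (fun α hα => ⟨(hp.1.2 α hα).1.trans hγ.2.le, (hp.1.2 α hα).2⟩)
    ⟨hγ.2.le, fun _ _ => Iff.rfl, fun _ _ => rfl⟩
  exact ⟨q, h1, h2, by rw [h3]; exact hγ.1⟩

lemma exists_g {p : Pre} (hp : PP p) (X : Set Lam) :
    ∃ q, PP q ∧ Le0 q p ∧ ∃ x < q.b.γ, q.b.g x = X := by
  classical
  obtain ⟨γ, hγ⟩ := exists_gt p.b.γ
  obtain ⟨q, h1, h2, h3⟩ := exists_base hp (b := ⟨γ, p.b.s, Function.update p.b.g p.b.γ X⟩)
    (fun α hα => ⟨(hp.1.2 α hα).1.trans hγ.le, (hp.1.2 α hα).2⟩)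
    ⟨hγ.le, fun _ _ => Iff.rfl, fun _ h => Function.update_of_ne h.ne _ _⟩
  exact ⟨q, h1, h2, p.b.γ, by rw [h3]; exact hγ, by rw [h3]; exact Function.update_self ..⟩

open Classical in
/-- adding coordinates -/
noncomputable def addW (w : Set K) (p : Pre) (e : O → Lam) : Pre :=
  ⟨p.b, p.W ∪ w, fun ζ => if ζ ∈ p.W then p.F ζ else e⟩

lemma addW_le (w : Set K) (p : Pre) (e : O → Lam) : Le0 (addW w p e) p :=
  ⟨BLe.refl _, fun ζ h _ => ⟨Or.inl h, fun x _ => by simp [addW, h]⟩⟩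

lemma addW_PP {w : Set K} (hw : #w ≤ LL) {p : Pre} (hp : PP p) {e : O → Lam}
    (he : InjOn e (Iio p.b.γ)) : PP (addW w p e) := by
  refine ⟨⟨union_le hp.1.1 hw, hp.1.2⟩, fun ζ h α hα => ?_⟩
  by_cases h1 : ζ ∈ p.W
  · exact G.of_le hp h1 hα ((addW_le w p e).on _)
  · obtain ⟨h2, l, hl⟩ := hp.1.2 α hα
    refine G.of_inj (hl.2.1 0) ?_
    simp only [addW, h1, if_false]
    exact he.mono fun x hx => hx.2.trans_le h2

lemma exists_coord {p : Pre} (hp : PP p) (ξ : K) : ∃ q, PP q ∧ Le0 q p ∧ ξ ∈ q.W := by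
  obtain ⟨e, he⟩ := exists_e p.b.γ
  exact ⟨_, addW_PP (w := {ξ}) (by simpa using one_le_aleph0.trans LL_inf) hp he, addW_le _ _ _,
    Or.inr rfl⟩

section lim
variable {I : Type} [Nonempty I]

/-- least upper bound -/
noncomputable def lub (f : I → O) : O := Classical.epsilon fun b => IsLUB (range f) b

lemma lub_spec (hI : #I ≤ LL) (f : I → O) : IsLUB (range f) (lub f) := by
  obtain ⟨b, hb⟩ := bdd (range f) (mk_range_le.trans hI)
  have hne : (upperBounds (range f)).Nonempty := ⟨b, fun a ha => (hb a ha).le⟩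
  exact Classical.epsilon_spec (p := fun b => IsLUB (range f) b)
    ⟨_, wellFounded_lt.min_mem _ hne, fun c hc => wellFounded_lt.min_le hc⟩

noncomputable def limB (b : I → Base) : Base :=
  ⟨lub fun i => (b i).γ, ⋃ i, (b i).s,
    fun x => (b (Classical.epsilon fun i => x < (b i).γ)).g x⟩

noncomputable def lim (p : I → Pre) : Pre :=
  ⟨limB fun i => (p i).b, ⋃ i, (p i).W,
    fun ζ x => (p (Classical.epsilon fun i => ζ ∈ (p i).W ∧ x < (p i).b.γ)).F ζ x⟩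

lemma le_lim_γ (hI : #I ≤ LL) (p : I → Pre) (i : I) : (p i).b.γ ≤ (lim p).b.γ :=
  (lub_spec hI _).1 ⟨i, rfl⟩

lemma lt_lim_γ (hI : #I ≤ LL) (p : I → Pre) {x : O} (h : x < (lim p).b.γ) :
    ∃ i, x < (p i).b.γ := by
  obtain ⟨_, ⟨i, rfl⟩, h⟩ := (lt_isLUB_iff (lub_spec hI _)).mp h
  exact ⟨i, h⟩

variable (hI : #I ≤ LL) {p : I → Pre} (hp : ∀ i, BasB (p i).b)
  (hd : ∀ i j, ∃ k, Le0 (p k) (p i) ∧ Le0 (p k) (p j))
include hI hp hd

lemma lim_le (i : I) : Le0 (lim p) (p i) := by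
  refine ⟨⟨le_lim_γ hI p i, fun α hα => ⟨fun h => ?_, fun h => mem_iUnion.mpr ⟨i, h⟩⟩,
    fun x hx => ?_⟩, fun ζ h _ => ⟨mem_iUnion.mpr ⟨i, h⟩, fun x hx => ?_⟩⟩
  · obtain ⟨j, hj⟩ := mem_iUnion.mp h
    obtain ⟨k, h1, h2⟩ := hd i j
    exact (h1.1.2.1 α hα).mp ((h2.1.2.1 α (hp j α hj).1).mpr hj)
  · have := Classical.epsilon_spec (p := fun i => x < (p i).b.γ) ⟨i, hx⟩
    obtain ⟨k, h1, h2⟩ := hd i (Classical.epsilon fun i => x < (p i).b.γ)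
    exact (h2.1.2.2 x this).symm.trans (h1.1.2.2 x hx)
  · have := Classical.epsilon_spec (p := fun i => ζ ∈ (p i).W ∧ x < (p i).b.γ) ⟨i, h, hx⟩
    obtain ⟨k, h1, h2⟩ := hd i (Classical.epsilon fun i => ζ ∈ (p i).W ∧ x < (p i).b.γ)
    exact ((h2.2 ζ this.1 trivial).2 x this.2).symm.trans ((h1.2 ζ h trivial).2 x hx)

lemma le_lim {A : Set K} {q : Pre} (h : ∀ i, FLe A q (p i)) : FLe A q (lim p) := by
  intro ζ h1 h2
  obtain ⟨i, hi⟩ := mem_iUnion.mp h1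
  refine ⟨(h i ζ hi h2).1, fun x hx => ?_⟩
  obtain ⟨j, hj⟩ := lt_lim_γ hI p hx
  obtain ⟨k, h3, h4⟩ := hd i j
  have h5 := (h3.2 ζ hi trivial).1
  have h6 := hj.trans_le h4.1.1
  rw [(h k ζ h5 h2).2 x h6, ((lim_le hI hp hd k).2 ζ h5 trivial).2 x h6]

omit hp in
lemma lim_PP (hp : ∀ i, PP (p i)) : PP (lim p) := by
  have hb := fun i => (hp i).1.2
  refine ⟨⟨?_, fun α hα => ?_⟩, fun ζ hζ α hα => ?_⟩
  · refine (mk_iUnion_le _).trans (mul_le_of LL_inf hI (ciSup_le' fun i => (hp i).1.1))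
  · obtain ⟨i, hi⟩ := mem_iUnion.mp hα
    exact ⟨(hb i α hi).1.trans (le_lim_γ hI p i), (hb i α hi).2⟩
  · obtain ⟨i, hi⟩ := mem_iUnion.mp hζ
    obtain ⟨j, hj⟩ := mem_iUnion.mp hα
    obtain ⟨k, h1, h2⟩ := hd i j
    exact G.of_le (hp k) (h1.2 ζ hi trivial).1 ((h2.1.2.1 α (hb j α hj).1).mpr hj)
      ((lim_le hI hb hd k).on _)

end lim

end Pool.Agent.MP_b3fb72_lc

end

-- part MP_b3fb72_lc.Closed
section

/-! Closure, linkedness and capturing of names. -/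

set_option autoImplicit false
set_option linter.unusedSectionVars false

open Cardinal Set

namespace Pool.Agent.MP_b3fb72_lc

def optF {J X : Type} (p0 : X) (x : J → X) : Option J → X := fun o => o.elim p0 x

lemma opt_le {J : Type} (hJ : #J ≤ LL) : #(Option J) ≤ LL := by
  rw [mk_option]; exact add_le_of_le LL_inf hJ (one_le_aleph0.trans LL_inf)

lemma opt_dir {J : Type} [LinearOrder J] {p0 : Pre} {x : J → Pre} (h0 : ∀ j, Le0 (x j) p0)
    (ha : ∀ j k, j < k → Le0 (x k) (x j)) (i j : Option J) :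
    ∃ k, Le0 (optF p0 x k) (optF p0 x i) ∧ Le0 (optF p0 x k) (optF p0 x j) := by
  rcases i with _ | i <;> rcases j with _ | j
  · exact ⟨none, LeOn.refl _ _, LeOn.refl _ _⟩
  · exact ⟨some j, h0 j, LeOn.refl _ _⟩
  · exact ⟨some i, LeOn.refl _ _, h0 i⟩
  · rcases lt_trichotomy i j with h | rfl | h
    · exact ⟨some j, ha _ _ h, LeOn.refl _ _⟩
    · exact ⟨some i, LeOn.refl _ _, LeOn.refl _ _⟩
    · exact ⟨some i, LeOn.refl _ _, ha _ _ h⟩

lemma opt_PP {J : Type} {p0 : Pre} {x : J → Pre} (h0 : PP p0) (h : ∀ j, PP (x j)) (o : Option J) :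
    PP (optF p0 x o) := by
  rcases o with _ | j
  · exact h0
  · exact h j

lemma chain_lb {J : Type} [LinearOrder J] (hJ : #J ≤ LL) {p0 : Pre} {x : J → Pre} (hp0 : PP p0)
    (hx : ∀ j, PP (x j)) (h0 : ∀ j, Le0 (x j) p0) (ha : ∀ j k, j < k → Le0 (x k) (x j)) :
    ∃ q, PP q ∧ Le0 q p0 ∧ (∀ j, Le0 q (x j)) ∧ ∀ ζ ∈ q.W, ζ ∈ p0.W ∨ ∃ j, ζ ∈ (x j).W := by
  have h1 := opt_PP hp0 hx
  have h2 := lim_le (opt_le hJ) (fun o => (h1 o).1.2) (opt_dir h0 ha)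
  refine ⟨_, lim_PP (opt_le hJ) (opt_dir h0 ha) h1, h2 none, fun j => h2 (some j), fun ζ h => ?_⟩
  obtain ⟨_ | j, hj⟩ := mem_iUnion.mp h
  · exact Or.inl hj
  · exact Or.inr ⟨j, hj⟩

lemma sub_le {I : Type} (hI : #I ≤ LL) (P : I → Prop) : #{j // P j} ≤ LL :=
  (mk_subtype_le _).trans hI

instance : Nonempty K := mk_ne_zero_iff.mp (by rw [mk_K]; exact power_ne_zero _ two_ne_zero)

instance : Nonempty Pre := ⟨⟨⟨lam, ∅, fun _ => ∅⟩, ∅, fun _ _ => Classical.arbitrary _⟩⟩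

lemma distrib {I : Type} (hI : #I ≤ LL) {p0 : Pre} (hp0 : PP p0) (D : I → Pre → Prop)
    (hop : ∀ i r r', D i r → PP r' → Le0 r' r → D i r')
    (hden : ∀ i q, PP q → Le0 q p0 → ∃ r, PP r ∧ Le0 r q ∧ D i r) :
    ∃ r, PP r ∧ Le0 r p0 ∧ ∀ i, D i r := by
  obtain ⟨_, _⟩ := exists_wellFoundedLT I
  obtain ⟨x, hx⟩ := rec_exists (I := I) (X := Pre)
    (fun i x y => PP y ∧ Le0 y p0 ∧ (∀ j hj, Le0 y (x j hj)) ∧ D i y) (fun i x ih => by
      obtain ⟨q, h1, h2, h3, -⟩ := chain_lb (J := {j // j < i}) (sub_le hI _) hp0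
        (x := fun j => x j.1 j.2) (fun j => (ih _ _).1) (fun j => (ih _ _).2.1)
        (fun j k h => (ih k.1 k.2).2.2.1 j.1 h)
      obtain ⟨r, h4, h5, h6⟩ := hden i q h1 h2
      exact ⟨r, h4, h5.trans h2, fun j hj => h5.trans (h3 ⟨j, hj⟩), h6⟩)
  obtain ⟨q, h1, h2, h3, -⟩ := chain_lb hI hp0 (fun j => (hx j).1) (fun j => (hx j).2.1)
    (fun j k h => (hx k).2.2.1 j h)
  exact ⟨q, h1, h2, fun i => hop i _ _ (hx i).2.2.2 h1 (h3 i)⟩

lemma linked : ∃ cls : Pre → Cls, ∀ p q, PP p → PP q → cls p = cls q →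
    ∃ r, PP r ∧ Le0 r p ∧ Le0 r q := by
  classical
  obtain ⟨j⟩ : #K ≤ #(Set N) := mk_K.le.trans mk_set.ge
  have key : ∀ p : Pre, ∃ xg : (Lam → N) × (Set Lam → O → Lam), #p.W ≤ LL →
      ∀ ζ ∈ p.W, xg.2 {i | xg.1 i ∈ j ζ} = p.F ζ := by
    intro p
    by_cases hW : #p.W ≤ LL
    swap
    · exact ⟨Classical.arbitrary _, fun h => absurd h hW⟩
    obtain ⟨f, hf⟩ := exists_inj (X := p.W × p.W) (by simpa using mul_le_of LL_inf hW hW)
    have : ∀ z : p.W × p.W, ∃ n : N, (n ∈ j z.1 ↔ n ∈ j z.2) → z.1 = z.2 := by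
      intro z
      by_contra h
      push Not at h
      exact (h ∅).2 (Subtype.ext (j.injective (Set.ext fun n => (h n).1)))
    choose pt hpt using this
    let x : Lam → N := Function.extend f pt fun _ => ∅
    have hx : ∀ ζ ∈ p.W, ∀ ζ' ∈ p.W, {i | x i ∈ j ζ} = {i | x i ∈ j ζ'} → ζ = ζ' := by
      intro ζ h ζ' h' e
      have := Set.ext_iff.mp e (f (⟨ζ, h⟩, ⟨ζ', h'⟩))
      simp only [mem_ofPred_eq, x, hf.extend_apply] at this
      exact congrArg Subtype.val (hpt (⟨ζ, h⟩, ⟨ζ', h'⟩) this)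
    refine ⟨(x, fun Y => p.F (Classical.epsilon fun ζ => ζ ∈ p.W ∧ {i | x i ∈ j ζ} = Y)),
      fun _ ζ h => ?_⟩
    have := Classical.epsilon_spec (p := fun ζ' => ζ' ∈ p.W ∧ {i | x i ∈ j ζ'} = {i | x i ∈ j ζ})
      ⟨ζ, h, rfl⟩
    exact congrArg p.F (hx _ this.1 _ h this.2)
  choose xg hxg using key
  refine ⟨fun p => (p.b, xg p), fun p q hp hq e => ?_⟩
  simp only [Prod.mk.injEq] at e
  let r : Pre := ⟨p.b, p.W ∪ q.W, fun ζ => if ζ ∈ p.W then p.F ζ else q.F ζ⟩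
  have h1 : Le0 r p := ⟨BLe.refl _, fun ζ h _ => ⟨Or.inl h, fun x _ => by simp [r, h]⟩⟩
  have h2 : Le0 r q := ⟨e.1 ▸ BLe.refl _, fun ζ h _ => ⟨Or.inr h, fun x _ => by
    by_cases h3 : ζ ∈ p.W
    · simp only [r, h3, if_true]
      rw [← hxg p hp.1.1 ζ h3, ← hxg q hq.1.1 ζ h, e.2]
    · simp [r, h3]⟩⟩
  refine ⟨r, ⟨⟨union_le hp.1.1 hq.1.1, hp.1.2⟩, ?_⟩, h1, h2⟩
  rintro ζ (h | h) α hα
  · exact G.of_le hp h hα (h1.on _)
  · exact G.of_le hq h (e.1 ▸ hα) (h2.on _)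

def code (r : Pre) (h : #r.W ≤ LL) : Code :=
  (r.b, ⟨(fun ζ => (ζ, r.F ζ)) '' r.W, mk_image_le.trans h⟩)

lemma below_code {r r' : Pre} (h : #r.W ≤ LL) : Below r' (code r h) ↔ Le0 r' r := by
  refine and_congr Iff.rfl ⟨fun H ζ h1 _ => H _ ⟨ζ, h1, rfl⟩, ?_⟩
  rintro H _ ⟨ζ, h1, rfl⟩
  exact H ζ h1 trivial

lemma capture (Dc : Pre → O → (ℕ → O) → Prop)
    (h1 : ∀ r r' α l, PP r' → Le0 r' r → Dc r α l → Dc r' α l)
    (h2 : ∀ r α l l', PP r → Dc r α l → Dc r α l' → l = l') :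
    ∃ ξ, ∀ q, PP q → ξ ∈ q.W → ∀ α ∈ q.b.s, ∀ l, Lad0 α l → Dc q α l → EvInj (q.F ξ) l := by
  classical
  obtain ⟨cls, hcls⟩ := linked
  have key : ∀ z : O × Cls, ∃ y : Pre × (ℕ → O), #y.1.W ≤ LL ∧
      ((∃ r l, PP r ∧ cls r = z.2 ∧ Dc r z.1 l) → PP y.1 ∧ cls y.1 = z.2 ∧ Dc y.1 z.1 y.2) := by
    intro z
    by_cases h : ∃ r l, PP r ∧ cls r = z.2 ∧ Dc r z.1 l
    · obtain ⟨r, l, h⟩ := h
      exact ⟨(r, l), h.1.1.1, fun _ => h⟩
    · exact ⟨(res ∅ (Classical.arbitrary _), fun _ => lam), by simp [res], fun h' => absurd h' h⟩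
  choose y hy1 hy2 using key
  obtain ⟨ξ0, hξ0⟩ := bddK (⋃ z, (y z).1.W) ((mk_iUnion_le _).trans (mul_le_of inf2
    (by simpa using mul_le_of inf2 O_le_N mk_Cls) (ciSup_le' fun z => (hy1 z).trans LL_le_N)))
  obtain ⟨ξ, hξ, hn⟩ := nm_spec (fun α a => if ∃ r l, PP r ∧ cls r = a ∧ Dc r α l then
    some (code (y (α, a)).1 (hy1 _), (y (α, a)).2) else none) ξ0
  have hdec : ∀ r α l, PP r → Dec ξ r α l → Dc r α l := by
    rintro r α l hr ⟨a, c, h3, h4⟩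
    rw [hn] at h3
    simp only at h3
    split_ifs at h3 with h5
    simp only [Option.some.injEq, Prod.mk.injEq] at h3
    rw [← h3.1, below_code] at h4
    rw [← h3.2]
    exact h1 _ _ _ _ hr h4 (hy2 (α, a) h5).2.2
  refine ⟨ξ, fun q hq hξq α hα l hl hD => ?_⟩
  have h5 : ∃ r l, PP r ∧ cls r = cls q ∧ Dc r α l := ⟨q, l, hq, rfl, hD⟩
  obtain ⟨h6, h7, h8⟩ := hy2 (α, cls q) h5
  obtain ⟨q', h9, h10, h11⟩ := hcls _ _ h6 hq h7
  have e : (y (α, cls q)).2 = l := h2 q' α _ _ h9 (h1 _ _ _ _ h9 h10 h8) (h1 _ _ _ _ h9 h11 hD)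
  have hr := res_PP (isLowerSet_Iio ξ) h9
  have hle : Le0 (res (Iio ξ) q') (y (α, cls q)).1 :=
    ((res_le _ _).trans (h10.on _)).univ fun ζ h => (hξ0 ζ (mem_iUnion.mpr ⟨_, h⟩)).trans hξ
  refine hq.2 ξ hξq α hα (res (Iio ξ) q') (PB_iff.mpr ⟨hr, inter_subset_right⟩)
    ((res_le _ _).trans (h11.on _)) l hl ⟨cls q, code _ (hy1 (α, cls q)), ?_, ?_⟩ ?_
  · rw [hn]; simp only [h5, if_true, e]
  · exact (below_code _).mpr hle
  · intro r' hr' h12 l' h13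
    have h14 := (PB_iff.mp hr').1
    exact h2 r' α _ _ h14 (hdec _ _ _ h14 h13) (e ▸ h1 _ _ _ _ h14 (h12.trans hle) h8)

end Pool.Agent.MP_b3fb72_lc

end

-- part MP_b3fb72_lc.Tree
section

/-! Trees of conditions: the generic set stays stationary. -/

set_option autoImplicit false
set_option linter.unusedSectionVars false

open Cardinal Set

namespace Pool.Agent.MP_b3fb72_lc

lemma amalg_in {A : Set K} {ζ : K} (h : ζ ∈ A) (r p : Pre) (e : O → Lam) :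
    (amalg A r p e).F ζ = r.F ζ := by simp [amalg, h]

lemma amalg_lt {A : Set K} {ζ : K} (h : ζ ∉ A) (r p : Pre) (e : O → Lam) {x : O}
    (hx : x < p.b.γ) : (amalg A r p e).F ζ x = p.F ζ x := by simp [amalg, h, hx]

lemma amalg_ge {A : Set K} {ζ : K} (h : ζ ∉ A) (r p : Pre) (e : O → Lam) {x : O}
    (hx : ¬ x < p.b.γ) : (amalg A r p e).F ζ x = e x := by simp [amalg, h, hx]

abbrev T : Type := ℕ → K → Set ℕ

def Agree (d : Set (ℕ × K)) (A : Set K) (t t' : T) : Prop :=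
  ∀ z ∈ d, z.2 ∈ A → t z.1 z.2 = t' z.1 z.2

lemma Agree.symm {d : Set (ℕ × K)} {A : Set K} {t t' : T} (h : Agree d A t t') : Agree d A t' t :=
  fun z h1 h2 => (h z h1 h2).symm

lemma Agree.trans {d : Set (ℕ × K)} {A : Set K} {t t' t'' : T} (h : Agree d A t t')
    (h' : Agree d A t' t'') : Agree d A t t'' := fun z h1 h2 => (h z h1 h2).trans (h' z h1 h2)

lemma Agree.mono {d d' : Set (ℕ × K)} {A A' : Set K} {t t' : T} (h : Agree d A t t') (hd : d' ⊆ d)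
    (hA : A' ⊆ A) : Agree d' A' t t' := fun z h1 h2 => h z (hd h1) (hA h2)

structure Fam (d : Set (ℕ × K)) (b : Base) (p : T → Pre) : Prop where
  pp : ∀ t, PP (p t)
  base : ∀ t, (p t).b = b
  coh : ∀ A, IsLowerSet A → ∀ t t', Agree d A t t' → FLe A (p t) (p t')

lemma reps {d : Set (ℕ × K)} (hd : #d < LL) : ∃ τ : Lam → T, ∀ t, ∃ η, Agree d univ t (τ η) := by
  classical
  obtain ⟨f, hf⟩ := exists_inj (X := d → Set ℕ) (by
    rw [← power_def, mk_set, ← power_mul]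
    exact (two_pow_lt_LL (mul_lt_of_lt LL_inf (by simpa using aleph0_lt_LL) hd)).le)
  refine ⟨fun η j ζ => if h : (j, ζ) ∈ d then Function.invFun f η ⟨_, h⟩ else ∅,
    fun t => ⟨f fun z => t z.1.1 z.1.2, fun z hz _ => ?_⟩⟩
  simp only [hz, dif_pos, Function.leftInverse_invFun hf _]

noncomputable def col : ℕ → Lam → O → O → Lam := exists_col.choose

lemma col_spec {i : ℕ} {η : Lam} {γ x : O} {i' : ℕ} {η' : Lam} {γ' x' : O} (h : x < γ)
    (h' : x' < γ') (e : col i η γ x = col i' η' γ' x') : i = i' ∧ η = η' ∧ (γ = γ' → x = x') :=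
  exists_col.choose_spec _ _ _ _ _ _ _ _ h h' e

lemma Fam.lim {d : Set (ℕ × K)} {I : Type} [Nonempty I] (hI : #I ≤ LL) {b : I → Base}
    {p : I → T → Pre} (h : ∀ i, Fam d (b i) (p i))
    (hd : ∀ t i j, ∃ k, Le0 (p k t) (p i t) ∧ Le0 (p k t) (p j t)) :
    Fam d (limB b) fun t => lim fun i => p i t := by
  refine ⟨fun t => lim_PP hI (hd t) fun i => (h i).pp t, fun t => ?_, fun A hA t t' ht => ?_⟩
  · exact congrArg limB (funext fun i => (h i).base t)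
  · refine le_lim hI (fun i => ((h i).pp t').1.2) (hd t') fun i => ?_
    refine ((lim_le hI (fun i => ((h i).pp t).1.2) (hd t) i).2.mono (subset_univ _)).trans
      ((h i).coh A hA t t' ht) ?_
    rw [(h i).base, (h i).base]

lemma Fam.amalg {d : Set (ℕ × K)} {b : Base} {p : T → Pre} (h : Fam d b p) (t0 : T) {r : Pre}
    (hr : PP r) (hle : Le0 r (p t0)) {e : O → Lam} (he : InjOn e (Iio r.b.γ)) :
    Fam d r.b (fun t => amalg {ξ | Agree d (Iic ξ) t t0} r (p t) e) ∧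
      ∀ t, Le0 (amalg {ξ | Agree d (Iic ξ) t t0} r (p t) e) (p t) := by
  have hA : ∀ t, IsLowerSet {ξ | Agree d (Iic ξ) t t0} := fun t a b hab h =>
    h.mono subset_rfl (Iic_subset_Iic.mpr hab)
  have h1 : ∀ t, LeOn {ξ | Agree d (Iic ξ) t t0} r (p t) := fun t =>
    (hle.on _).trans ⟨by rw [h.base, h.base]; exact BLe.refl _,
      h.coh _ (hA t) _ _ fun z h1 h2 => (h2 z h1 self_mem_Iic).symm⟩
  refine ⟨⟨fun t => amalg_PP (hA t) hr (h.pp t) (h1 t) (he.mono Ico_subset_Iio_self),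
    fun _ => rfl, fun A hA t t' ht ζ hζ hζA => ?_⟩, fun t => amalg_le_right e (h1 t)⟩
  have h2 := ht.mono subset_rfl (hA.Iic_subset hζA)
  have h3 : Agree d (Iic ζ) t t0 ↔ Agree d (Iic ζ) t' t0 := ⟨h2.symm.trans, h2.trans⟩
  rcases hζ with ⟨h4, h5⟩ | ⟨h4, h5⟩
  · refine ⟨Or.inl ⟨h4, h3.mpr h5⟩, fun x _ => ?_⟩
    rw [amalg_in (A := {ξ | Agree d (Iic ξ) t t0}) (h3.mpr h5), amalg_in h5]
  · have h6 := h.coh A hA t t' ht ζ h4 hζA
    refine ⟨Or.inr ⟨h6.1, fun h7 => h5 (h3.mp h7)⟩, fun x _ => ?_⟩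
    have h7 : ζ ∉ {ξ | Agree d (Iic ξ) t t0} := fun h7 => h5 (h3.mp h7)
    by_cases h8 : x < (p t').b.γ
    · rw [amalg_lt h5 _ _ _ h8, amalg_lt h7 _ _ _ (by rw [h.base] at h8 ⊢; exact h8), h6.2 x h8]
    · rw [amalg_ge h5 _ _ _ h8, amalg_ge h7 _ _ _ (by rw [h.base] at h8 ⊢; exact h8)]

lemma step (i : ℕ) {d : Set (ℕ × K)} (hd : #d < LL) {b : Base} {p : T → Pre} (hF : Fam d b p)
    (D : Pre → Prop) (p0 : Pre) (hp0 : ∀ t, Le0 (p t) p0)
    (hD : ∀ q, PP q → Le0 q p0 → ∃ r, PP r ∧ Le0 r q ∧ D r) :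
    ∃ b' p', Fam d b' p' ∧ (∀ t, Le0 (p' t) (p t)) ∧ (∀ t, ∃ r, D r ∧ Le0 (p' t) r) ∧
      ∃ (τ : O → T) (e : O → Lam), InjOn e (Ico b.γ b'.γ) ∧
        (∀ x ∈ Ico b.γ b'.γ, ∃ η γ, x < γ ∧ e x = col i η γ x) ∧
        ∀ t, ∀ ξ ∈ (p t).W, ∀ x ∈ Ico b.γ b'.γ, ¬ Agree d (Iic ξ) t (τ x) → (p' t).F ξ x = e x := by
  obtain ⟨τ, hτ⟩ := reps hd
  have : Nonempty (Base × (T → Pre)) := ⟨(b, p)⟩
  obtain ⟨x, hx⟩ := rec_exists (I := Lam) (X := Base × (T → Pre))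
    (fun η x y => Fam d y.1 y.2 ∧ (∀ t, Le0 (y.2 t) (p t)) ∧
      (∀ j hj t, Le0 (y.2 t) ((x j hj).2 t)) ∧ (∃ r, D r ∧ Le0 (y.2 (τ η)) r) ∧
      ∀ t, ∀ ξ ∈ (p t).W, ∀ z, b.γ ≤ z → z < y.1.γ → (∀ j hj, (x j hj).1.γ ≤ z) →
        ¬ Agree d (Iic ξ) t (τ η) → (y.2 t).F ξ z = col i η y.1.γ z) (fun η x ih => by
      let J := {j // j < η}
      have hJ : #(Option J) ≤ LL := opt_le (sub_le mk_Lam.le _)
      let y : Option J → Base × (T → Pre) := optF (b, p) fun j => x j.1 j.2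
      have hy : ∀ o, Fam d (y o).1 (y o).2 := by
        rintro (_ | j)
        · exact hF
        · exact (ih _ _).1
      have hdir : ∀ t i j, ∃ k, Le0 ((y k).2 t) ((y i).2 t) ∧ Le0 ((y k).2 t) ((y j).2 t) := by
        intro t i j
        have e : ∀ o, (y o).2 t = optF (p t) (fun j : J => (x j.1 j.2).2 t) o := by
          rintro (_ | j) <;> rfl
        simp only [e]
        exact opt_dir (fun j => (ih _ _).2.1 t) (fun j k h => (ih k.1 k.2).2.2.1 j.1 h t) i j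
      have hL := Fam.lim hJ hy hdir
      have hle := fun t => lim_le hJ (fun o => ((hy o).pp t).1.2) (hdir t)
      obtain ⟨r, hr, h1, h2⟩ := hD _ (hL.pp (τ η)) ((hle _ none).trans (hp0 _))
      obtain ⟨h3, h4⟩ := hL.amalg (τ η) hr h1 (e := col i η r.b.γ)
        fun a ha c hc e => (col_spec ha hc e).2.2 rfl
      refine ⟨(_, _), h3, fun t => (h4 t).trans (hle t none),
        fun j hj t => (h4 t).trans (hle t (some ⟨j, hj⟩)),
        ⟨r, h2, (amalg_le_left _ _ _ _).mono fun ξ _ z _ _ => rfl⟩, ?_⟩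
      intro t ξ _ z h5 _ h6 h7
      have h8 : ¬ z < (lim fun o => (y o).2 t).b.γ := by
        intro h9
        obtain ⟨o, ho⟩ := lt_lim_γ hJ _ h9
        rw [(hy o).base] at ho
        rcases o with _ | j
        · exact ho.not_ge h5
        · exact ho.not_ge (h6 j.1 j.2)
      exact amalg_ge (A := {ξ | Agree d (Iic ξ) t (τ η)}) h7 _ _ _ h8)
  have hdir : ∀ t i j, ∃ k, Le0 ((x k).2 t) ((x i).2 t) ∧ Le0 ((x k).2 t) ((x j).2 t) := by
    intro t i j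
    rcases lt_trichotomy i j with h | rfl | h
    · exact ⟨j, (hx j).2.2.1 i h t, LeOn.refl _ _⟩
    · exact ⟨i, LeOn.refl _ _, LeOn.refl _ _⟩
    · exact ⟨i, LeOn.refl _ _, (hx i).2.2.1 j h t⟩
  have hL := Fam.lim mk_Lam.le (fun η => (hx η).1) hdir
  have hle := fun t => lim_le mk_Lam.le (fun o => ((hx o).1.pp t).1.2) (hdir t)
  obtain ⟨η0⟩ : Nonempty Lam := inferInstance
  have key : ∀ z, ∃ η, z < (limB fun η => (x η).1).γ →
      z < (x η).1.γ ∧ ∀ j < η, (x j).1.γ ≤ z := by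
    intro z
    by_cases hz : z < (limB fun η => (x η).1).γ
    swap
    · exact ⟨η0, fun h => absurd h hz⟩
    have hne : {η | z < (x η).1.γ}.Nonempty := by
      obtain ⟨_, ⟨η, rfl⟩, h⟩ := (lt_isLUB_iff (lub_spec mk_Lam.le _)).mp hz
      exact ⟨η, h⟩
    exact ⟨_, fun _ => ⟨wellFounded_lt.min_mem _ hne, fun j hj => not_lt.mp fun h =>
      wellFounded_lt.not_lt_min {η | z < (x η).1.γ} h hj⟩⟩
  choose η hη using key
  refine ⟨_, _, hL, fun t => (hle t η0).trans ((hx η0).2.1 t), fun t => ?_, fun z => τ (η z),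
    fun z => col i (η z) (x (η z)).1.γ z, fun a ha c hc e => ?_,
    fun z hz => ⟨_, _, (hη z hz.2).1, rfl⟩, fun t ξ hξ z hz h => ?_⟩
  · obtain ⟨k, hk⟩ := hτ t
    obtain ⟨r, h1, h2⟩ := (hx k).2.2.2.1
    refine ⟨r, h1, (hle t k).trans (LeOn.trans ⟨?_, (hx k).1.coh _ isLowerSet_univ _ _ hk⟩ h2)⟩
    rw [(hx k).1.base, (hx k).1.base]; exact BLe.refl _
  · have := col_spec (hη a ha.2).1 (hη c hc.2).1 e
    exact this.2.2 (by rw [this.2.1])
  · refine Eq.trans ?_ ((hx (η z)).2.2.2.2 t ξ hξ z hz.1 (hη z hz.2).1 (hη z hz.2).2 h)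
    refine ((hle t (η z)).2 ξ (((hx _).2.1 t).2 ξ hξ trivial).1 trivial).2 z ?_
    rw [(hx _).1.base]; exact (hη z hz.2).1

lemma seq_exists {X : Type} (Inv : X → Prop) (R : ℕ → X → X → Prop) (x0 : X) (h0 : Inv x0)
    (h : ∀ i x, Inv x → ∃ y, Inv y ∧ R i x y) :
    ∃ f : ℕ → X, f 0 = x0 ∧ ∀ i, Inv (f i) ∧ R i (f i) (f (i + 1)) := by
  choose g h1 h2 using h
  let f : ℕ → {x // Inv x} := fun n => Nat.rec ⟨x0, h0⟩ (fun i x => ⟨g i x.1 x.2, h1 i x.1 x.2⟩) n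
  exact ⟨fun n => (f n).1, rfl, fun i => ⟨(f i).2, h2 i _ _⟩⟩

structure St where
  d : Set (ℕ × K)
  b : Base
  p : T → Pre
  h : ℕ → Set K

structure St.Inv (p0 : Pre) (y : St) : Prop where
  small : #y.d < LL
  fam : Fam y.d y.b y.p
  le : ∀ t, Le0 (y.p t) p0
  hs : ∀ n, #(y.h n) < LL
  mono : Monotone y.h
  cov : ∀ t, ∀ ξ ∈ (y.p t).W, ∃ n, ξ ∈ y.h n

structure St.Rel (D : O → Pre → Prop) (i : ℕ) (y y' : St) : Prop where
  hd : y'.d = y.d ∪ {i} ×ˢ y.h i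
  hh : ∀ n, y.h n ⊆ y'.h n
  le : ∀ t, Le0 (y'.p t) (y.p t)
  lt : y.b.γ < y'.b.γ
  hD : ∀ t, ∃ r, D y.b.γ r ∧ Le0 (y'.p t) r
  mem : ∀ t, y.h i ⊆ (y'.p t).W
  clr : ∃ (τ : O → T) (e : O → Lam), InjOn e (Ico y.b.γ y'.b.γ) ∧
    (∀ x ∈ Ico y.b.γ y'.b.γ, ∃ η γ, x < γ ∧ e x = col i η γ x) ∧
    ∀ t, ∀ ξ ∈ y.h i, ∀ x ∈ Ico y.b.γ y'.b.γ, ¬ Agree y'.d (Iic ξ) t (τ x) →
      (y'.p t).F ξ x = e x

lemma St.step {p0 : Pre} (D : O → Pre → Prop)
    (hD : ∀ β q, PP q → Le0 q p0 → ∃ r, PP r ∧ Le0 r q ∧ D β r) (i : ℕ) (y : St)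
    (hy : y.Inv p0) : ∃ y', y'.Inv p0 ∧ St.Rel D i y y' := by
  obtain ⟨e0, he0⟩ := exists_e y.b.γ
  have hd : #(y.d ∪ {i} ×ˢ y.h i : Set _) < LL :=
    (mk_union_le _ _).trans_lt (add_lt_of_lt LL_inf hy.small (by simpa [mk_setProd] using hy.hs i))
  have hF : Fam (y.d ∪ {i} ×ˢ y.h i) y.b fun t => addW (y.h i) (y.p t) e0 := by
    refine ⟨fun t => addW_PP (hy.hs i).le (hy.fam.pp t) (by rw [hy.fam.base]; exact he0),
      hy.fam.base, fun A hA t t' ht ζ h1 h2 => ?_⟩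
    have h3 := ht.mono subset_union_left subset_rfl
    have h4 := hy.fam.coh A hA t t' h3 ζ
    by_cases h5 : ζ ∈ (y.p t').W
    · refine ⟨Or.inl (h4 h5 h2).1, fun x hx => ?_⟩
      simp only [addW]
      rw [if_pos (h4 h5 h2).1, if_pos h5]
      exact (h4 h5 h2).2 x hx
    · refine ⟨Or.inr (h1.resolve_left h5), fun x hx => ?_⟩
      simp only [addW]
      rw [if_neg (fun h6 => h5 (hy.fam.coh A hA t' t h3.symm ζ h6 h2).1), if_neg h5]
  obtain ⟨b', p', h1, h2, h3, τ, e, h4, h5, h6⟩ := Pool.Agent.MP_b3fb72_lc.step i hd hF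
    (fun r => D y.b.γ r ∧ y.b.γ < r.b.γ) p0 (fun t => (addW_le _ _ _).trans (hy.le t))
    (fun q hq h => by
      obtain ⟨q', a1, a2, a3⟩ := exists_high hq y.b.γ
      obtain ⟨r, a4, a5, a6⟩ := hD y.b.γ q' a1 (a2.trans h)
      exact ⟨r, a4, a5.trans a2, a6, a3.trans_le a5.1.1⟩)
  obtain ⟨σ, hσ⟩ := reps hd
  obtain ⟨w, w1, w2, w3⟩ := pieces (⋃ η, (p' (σ η)).W) ((mk_iUnion_le _).trans
    (mul_le_of LL_inf mk_Lam.le (ciSup_le' fun η => (h1.pp _).1.1)))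
  have h7 := fun t => (h2 t).trans (addW_le _ _ _)
  refine ⟨⟨_, b', p', fun n => y.h n ∪ w n⟩, ⟨hd, h1, fun t => (h7 t).trans (hy.le t),
    fun n => (mk_union_le _ _).trans_lt (add_lt_of_lt LL_inf (hy.hs n) (w2 n)),
    fun m n h => union_subset_union (hy.mono h) (w1 h), fun t ξ hξ => ?_⟩,
    ⟨rfl, fun n => subset_union_left, h7, ?_, fun t => (h3 t).imp fun r h => ⟨h.1.1, h.2⟩,
    fun t ξ hξ => ((h2 t).2 ξ (Or.inr hξ) trivial).1,
    τ, e, h4, h5, fun t ξ hξ => h6 t ξ (Or.inr hξ)⟩⟩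
  · obtain ⟨η, hη⟩ := hσ t
    obtain ⟨n, hn⟩ := w3 ξ (mem_iUnion.mpr ⟨η, (h1.coh _ isLowerSet_univ _ _ hη.symm ξ hξ trivial).1⟩)
    exact ⟨n, Or.inr hn⟩
  · obtain ⟨r, a1, a2⟩ := h3 (fun _ _ => ∅)
    have := a1.2.trans_le a2.1.1
    rwa [h1.base] at this

end Pool.Agent.MP_b3fb72_lc

end

-- part MP_b3fb72_lc.Stat
section

/-! The master condition. -/

set_option autoImplicit false
set_option linter.unusedSectionVars false

open Cardinal Set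

namespace Pool.Agent.MP_b3fb72_lc

lemma exists_avoid (f : ℕ → Set ℕ) : ∃ u, ∀ m, u ≠ f m := by
  by_contra h
  push Not at h
  exact Function.cantor_surjective f fun u => (h u).imp fun _ e => e.symm

lemma exists_seg {δ : O} {γ : ℕ → O} (h : Lad0 δ γ) {i0 : ℕ} {x : O} (h1 : γ i0 ≤ x) (h2 : x < δ) :
    ∃ i, i0 ≤ i ∧ x ∈ Ico (γ i) (γ (i + 1)) := by
  classical
  have h3 := h.2.2 x h2
  have h4 := Nat.find_spec h3
  have h5 : i0 < Nat.find h3 := h.1.lt_iff_lt.mp (h1.trans_lt h4)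
  obtain ⟨i, hi⟩ : ∃ i, Nat.find h3 = i + 1 := ⟨Nat.find h3 - 1, by omega⟩
  exact ⟨i, by omega, not_lt.mp (Nat.find_min h3 (by omega)), hi ▸ h4⟩

/-- The final recursion along the coordinates. -/
lemma master {W : Set K} (hW : #W ≤ LL) {b : Base} (hb : BasB b) (P : T → Pre)
    (hP1 : ∀ t, (P t).b = b) (hP2 : ∀ t, (P t).W ⊆ W)
    (coh : ∀ A, IsLowerSet A → ∀ t t', Agree (Set.univ ×ˢ W) A t t' → FLe A (P t) (P t'))
    (hG : ∀ t, ∀ ξ ∈ (P t).W, ∀ α ∈ b.s, α < b.γ → ∀ q, LeOn (Iic ξ) q (P t) → G ξ q α)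
    (hE : ∀ ξ ∈ W, ∀ l, ∃ u : ℕ → Set ℕ, Lad0 b.γ l → ∀ t : T, (∀ n, t n ξ = u n) →
      EvInj ((P t).F ξ) l) :
    ∃ q t, PP q ∧ Le0 q (P t) := by
  classical
  have hb0 := PP_base hb (P fun _ _ => ∅).F
  have : Nonempty ((ℕ → Set ℕ) × Pre) := inferInstance
  obtain ⟨x, hx⟩ := rec_exists (I := W) (X := (ℕ → Set ℕ) × Pre)
    (fun ξ x y => PP y.2 ∧ y.2.W ⊆ Iic ξ.1 ∧ BLe y.2.b b ∧ (∀ j hj, Le0 y.2 (x j hj).2) ∧
      ∀ t : T, (∀ j hj n, t n j.1 = (x j hj).1 n) → (∀ n, t n ξ.1 = y.1 n) →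
        FLe (Iic ξ.1) y.2 (P t)) (fun ξ x ih => by
      obtain ⟨q, h1, h2, h3, h4⟩ := chain_lb (J := {j // j < ξ}) (sub_le hW _) hb0
        (x := fun j => (x j.1 j.2).2) (fun j => (ih _ _).1)
        (fun j => ⟨(ih _ _).2.2.1, fun _ h => h.elim⟩) (fun j k h => (ih k.1 k.2).2.2.2.1 j.1 h)
      have h5 : q.W ⊆ Iio ξ.1 := by
        intro ζ h
        rcases h4 ζ h with h | ⟨j, h⟩
        · exact h.elim
        · exact lt_of_le_of_lt (mem_Iic.mp ((ih j.1 j.2).2.1 h)) j.2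
      have h6 : ∀ t : T, (∀ j hj n, t n j.1 = (x j hj).1 n) → FLe (Iio ξ.1) q (P t) := by
        intro t ht ζ a1 a2
        have hj : (⟨ζ, hP2 t a1⟩ : W) < ξ := a2
        refine (((h3 ⟨_, hj⟩).2.mono (subset_univ _)).trans ((ih _ hj).2.2.2.2 t
          (fun k hk => ht k _) (ht _ hj)) ?_) ζ a1 self_mem_Iic
        rw [hP1]; exact (ih _ hj).2.2.1.1
      obtain ⟨r, l, r1, r2, r3, r4⟩ : ∃ r l, PP r ∧ r.W ⊆ Iio ξ.1 ∧ Le0 r q ∧ ∀ r', PB ξ r' →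
          Le0 r' r → ∀ l', Dec ξ r' b.γ l' →
          (∀ r'', PB ξ r'' → Le0 r'' r' → ∀ l'', Dec ξ r'' b.γ l'' → l'' = l') → l' = l := by
        by_cases h : ∃ r l, PB ξ r ∧ Le0 r q ∧ Dec ξ r b.γ l ∧
          ∀ r'', PB ξ r'' → Le0 r'' r → ∀ l'', Dec ξ r'' b.γ l'' → l'' = l
        · obtain ⟨r, l, a1, a2, -, a4⟩ := h
          exact ⟨r, l, (PB_iff.mp a1).1, (PB_iff.mp a1).2, a2, fun r' a5 a6 l' a7 _ =>
            a4 r' a5 a6 l' a7⟩
        · exact ⟨q, fun _ => lam, h1, h5, LeOn.refl _ _, fun r' a5 a6 l' a7 a8 =>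
            (h ⟨r', l', a5, a6, a7, a8⟩).elim⟩
      obtain ⟨u, hu⟩ := hE ξ.1 ξ.2 l
      let t0 : T := fun n ζ => if ζ = ξ.1 then u n else
        if h : ζ ∈ W ∧ ζ < ξ.1 then (x ⟨ζ, h.1⟩ h.2).1 n else ∅
      have t1 : ∀ n, t0 n ξ.1 = u n := fun n => if_pos rfl
      have t2 : ∀ j hj n, t0 n j.1 = (x j hj).1 n := fun j hj n => by
        have h7 : j.1 < ξ.1 := hj
        simp only [t0]
        rw [if_neg h7.ne, dif_pos ⟨j.2, h7⟩]
      obtain ⟨e, he⟩ := exists_e r.b.γ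
      have h7 : LeOn (Iio ξ.1) r (res (Iic ξ.1) (P t0)) :=
        ((r3.on _).trans ⟨by rw [hP1]; exact h2.1, h6 t0 t2⟩).trans ((le_res _ _).on _)
      have h8 : LeOn (Iic ξ.1) (amalg (Iio ξ.1) r (res (Iic ξ.1) (P t0)) e) (P t0) :=
        ((amalg_le_right e h7).on _).trans (res_le _ _)
      have h9 : Le0 (amalg (Iio ξ.1) r (res (Iic ξ.1) (P t0)) e) r :=
        (amalg_le_left _ _ _ _).univ r2
      refine ⟨(u, amalg (Iio ξ.1) r (res (Iic ξ.1) (P t0)) e), ?_, ?_, r3.1.trans h2.1,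
        fun j hj => h9.trans (r3.trans (h3 ⟨j, hj⟩)), fun t a1 a2 => ?_⟩
      · refine amalg_PP' (isLowerSet_Iio _) r1 (((mk_le_mk_of_subset inter_subset_left).trans
          (mk_le_mk_of_subset (hP2 t0))).trans hW) (he.mono Ico_subset_Iio_self) ?_
        intro ζ a1 a2 α a3 a4
        obtain rfl : ζ = ξ.1 := le_antisymm a1.2 (not_lt.mp a2)
        have a5 : α ≤ b.γ := by rw [← hP1 t0]; exact a4
        rcases a5.lt_or_eq with a6 | rfl
        · exact hG t0 _ a1.1 α (((r3.1.trans h2.1).2.1 α a5).mp a3) a6 _ h8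
        · intro r' b1 b2 l' b3 b4 b5
          obtain rfl := r4 r' b1 ((b2.trans (h9.on _)).univ r2) l' b4 b5
          obtain ⟨n, hn⟩ := hu b3 t0 t1
          refine ⟨n, fun i j c1 c2 => ?_⟩
          rw [(h8.2 _ a1.1 self_mem_Iic).2 _ (by rw [hP1]; exact b3.2.1 i),
            (h8.2 _ a1.1 self_mem_Iic).2 _ (by rw [hP1]; exact b3.2.1 j)]
          exact hn i j c1 c2
      · rintro ζ (⟨-, a1⟩ | ⟨a1, -⟩)
        · exact Iio_subset_Iic_self a1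
        · exact a1.2
      · refine h8.2.trans (coh _ (isLowerSet_Iic _) _ _ fun z b1 b2 => ?_) (by rw [hP1, hP1])
        rcases (show z.2 ≤ ξ.1 from b2).lt_or_eq with b3 | b3
        · exact (t2 ⟨z.2, b1.2⟩ b3 _).trans (a1 ⟨z.2, b1.2⟩ b3 _).symm
        · rw [b3, t1, a2])
  obtain ⟨q, h1, h2, h3, -⟩ := chain_lb hW hb0 (x := fun j => (x j).2) (fun j => (hx j).1)
    (fun j => ⟨(hx j).2.2.1, fun _ h => h.elim⟩) (fun j k h => (hx k).2.2.2.1 j h)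
  let t : T := fun n ζ => if h : ζ ∈ W then (x ⟨ζ, h⟩).1 n else ∅
  have ht : ∀ (j : W) n, t n j.1 = (x j).1 n := fun j n => dif_pos j.2
  refine ⟨q, t, h1, by rw [hP1]; exact h2.1, fun ζ a1 _ => ?_⟩
  refine (((h3 ⟨ζ, hP2 t a1⟩).2.mono (subset_univ _)).trans ((hx _).2.2.2.2 t
    (fun k _ => ht k) (ht _)) ?_) ζ a1 self_mem_Iic
  rw [hP1]; exact (hx _).2.2.1.1

theorem stat {p0 : Pre} (hp0 : PP p0) (D : O → Pre → Prop)
    (hD : ∀ β q, PP q → Le0 q p0 → ∃ r, PP r ∧ Le0 r q ∧ D β r) :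
    ∃ q, PP q ∧ Le0 q p0 ∧ ∃ δ ∈ q.b.s, ∃ γ, Lad0 δ γ ∧
      ∀ i, ∃ r, D (γ i) r ∧ Le0 q r ∧ r.b.γ < δ := by
  obtain ⟨w, w1, w2, w3⟩ := pieces p0.W hp0.1.1
  obtain ⟨y, hy0, hy⟩ := seq_exists (St.Inv p0) (St.Rel D) ⟨∅, p0.b, fun _ => p0, w⟩
    ⟨by simpa using aleph0_pos.trans aleph0_lt_LL, ⟨fun _ => hp0, fun _ => rfl,
      fun _ _ _ _ _ => FLe.refl _ _⟩, fun _ => LeOn.refl _ _, w2, w1, fun _ => w3⟩ (St.step D hD)
  have hN : #ℕ ≤ LL := by simpa using LL_inf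
  have hle : ∀ t i j, i ≤ j → Le0 ((y j).p t) ((y i).p t) := by
    intro t i j h
    induction j, h using Nat.le_induction with
    | base => exact LeOn.refl _ _
    | succ j _ ih => exact ((hy j).2.le t).trans ih
  have hdir : ∀ t i j, ∃ k, Le0 ((y k).p t) ((y i).p t) ∧ Le0 ((y k).p t) ((y j).p t) :=
    fun t i j => ⟨max i j, hle t _ _ (le_max_left _ _), hle t _ _ (le_max_right _ _)⟩
  let W : Set K := ⋃ i, (y i).h i
  have hW : #W ≤ LL := (mk_iUnion_le _).trans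
    (mul_le_of LL_inf hN (ciSup_le' fun i => ((hy i).1.hs i).le))
  have hh : ∀ n, Monotone fun i => (y i).h n := fun n =>
    monotone_nat_of_le_succ fun i => (hy i).2.hh n
  have hdiag : Monotone fun i => (y i).h i := fun i j h => (hh i h).trans ((hy j).1.mono h)
  have hd : ∀ i, (y i).d ⊆ Set.univ ×ˢ W := by
    intro i
    induction i with
    | zero => rw [hy0]; exact empty_subset _
    | succ i ih =>
      rw [(hy i).2.hd]
      exact union_subset ih (prod_mono (subset_univ _) (subset_iUnion (fun i => (y i).h i) i))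
  have hL := Fam.lim (d := Set.univ ×ˢ W) hN (b := fun i => (y i).b) (p := fun i => (y i).p)
    (fun i => ⟨(hy i).1.fam.pp, (hy i).1.fam.base, fun A hA t t' h =>
      (hy i).1.fam.coh A hA t t' (h.mono (hd i) subset_rfl)⟩) hdir
  have hl := fun t => lim_le hN (fun i => ((hy i).1.fam.pp t).1.2) (hdir t)
  set bi := limB fun i => (y i).b with hbi
  have hlub : IsLUB (range fun i => (y i).b.γ) bi.γ := lub_spec hN _
  have hlad : Lad0 bi.γ fun i => (y i).b.γ :=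
    ⟨strictMono_nat_of_lt_succ fun i => (hy i).2.lt,
      fun i => (hy i).2.lt.trans_le (hlub.1 ⟨i + 1, rfl⟩), fun β h => by
        obtain ⟨_, ⟨i, rfl⟩, h⟩ := (lt_isLUB_iff hlub).mp h
        exact ⟨i, h⟩⟩
  let b : Base := ⟨bi.γ, insert bi.γ bi.s, bi.g⟩
  have hb : BasB b := by
    rintro α (rfl | h)
    · exact ⟨le_rfl, _, hlad⟩
    · have := (hL.pp fun _ _ => ∅).1.2
      rw [hL.base] at this
      exact this α h
  let P : T → Pre := fun t => ⟨b, (lim fun i => (y i).p t).W, (lim fun i => (y i).p t).F⟩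
  have hP : ∀ t i, Le0 (P t) ((y i).p t) := by
    intro t i
    have h1 := (hl t i).1
    rw [hL.base] at h1
    refine ⟨⟨h1.1, fun α hα => Iff.trans ?_ (h1.2.1 α hα), h1.2.2⟩, (hl t i).2⟩
    rw [(hy i).1.fam.base] at hα
    exact mem_insert_iff.trans (or_iff_right (hα.trans_lt (hlad.2.1 i)).ne)
  obtain ⟨q, t, h1, h2⟩ := master hW hb P (fun _ => rfl) (fun t ξ h => by
      obtain ⟨i, hi⟩ := mem_iUnion.mp h
      obtain ⟨n, hn⟩ := (hy i).1.cov t ξ hi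
      exact mem_iUnion.mpr ⟨max i n, (hy _).1.mono (le_max_right _ _) (hh n (le_max_left _ _) hn)⟩)
    (fun A hA t t' h ζ a1 a2 => by
      have := hL.coh A hA t t' h ζ a1 a2
      exact ⟨this.1, fun x hx => this.2 x (by rw [hL.base]; exact hx)⟩)
    (fun t ξ hξ α hα h q hq => by
      obtain ⟨i, hi⟩ := mem_iUnion.mp hξ
      obtain ⟨j, hj⟩ := hlad.2.2 α h
      have a1 := hP t (max i j)
      refine G.of_le ((hy _).1.fam.pp t) ((hle t _ _ (le_max_left i j)).2 ξ hi trivial).1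
        ((a1.1.2.1 α ?_).mp hα) (hq.trans (a1.on _))
      rw [(hy _).1.fam.base]
      exact hj.le.trans (hlad.1.monotone (le_max_right _ _)))
    (fun ξ hξ l => by
      choose τ e e1 e2 e3 using fun i => (hy i).2.clr
      choose u hu using fun n => exists_avoid fun m => τ n (l m) n ξ
      refine ⟨u, fun hl' t ht => ?_⟩
      obtain ⟨i0, hi0⟩ := mem_iUnion.mp hξ
      obtain ⟨n, hn⟩ := hl'.2.2 _ (hlad.2.1 i0)
      have key : ∀ m, n ≤ m → ∃ i, l m ∈ Ico (y i).b.γ (y (i + 1)).b.γ ∧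
          (P t).F ξ (l m) = e i (l m) := by
        intro m hm
        obtain ⟨i, a1, a2⟩ := exists_seg hlad (hn.le.trans (hl'.1.monotone hm)) (hl'.2.1 m)
        have a3 : ξ ∈ (y i).h i := hdiag a1 hi0
        refine ⟨i, a2, Eq.trans (((hP t (i + 1)).2 ξ ((hy i).2.mem t a3) trivial).2 _ ?_)
          (e3 i t ξ a3 _ a2 fun h => hu i m ?_)⟩
        · rw [(hy _).1.fam.base]; exact a2.2
        · rw [← ht]
          exact h (i, ξ) (by rw [(hy i).2.hd]; exact Or.inr ⟨rfl, a3⟩) self_mem_Iic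
      refine ⟨n, fun i j a1 a2 a3 => ?_⟩
      obtain ⟨k, b1, b2⟩ := key i a1
      obtain ⟨k', b3, b4⟩ := key j (a1.trans a2.le)
      rw [b2, b4] at a3
      obtain ⟨η, γ, c1, c2⟩ := e2 k _ b1
      obtain ⟨η', γ', c3, c4⟩ := e2 k' _ b3
      obtain rfl := (col_spec c1 c3 (c2.symm.trans (a3.trans c4))).1
      exact (hl'.1 a2).ne (e1 k b1 b3 a3))
  refine ⟨q, h1, (h2.trans (hP t 0)).trans ((hy 0).1.le t), bi.γ,
    (h2.1.2.1 _ le_rfl).mpr (mem_insert _ _), _, hlad, fun i => ?_⟩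
  obtain ⟨r, a1, a2⟩ := (hy i).2.hD t
  refine ⟨r, a1, (h2.trans (hP t _)).trans a2, a2.1.1.trans_lt ?_⟩
  rw [(hy _).1.fam.base]
  exact hlad.2.1 (i + 1)

end Pool.Agent.MP_b3fb72_lc

end

-- part MP_b3fb72_lc.Main
section

/-! The model. -/

set_option autoImplicit false
set_option linter.unusedSectionVars false
set_option synthInstance.maxSize 2000

open Cardinal Set

namespace Pool.Agent.MP_b3fb72_lc

open Pool.Agent.Lib.Forcing Pool.Agent.Lib.PosetForcing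

/-- The forcing notion. -/
structure Q : Type where
  val : Pre
  prop : PP val

instance : Preorder Q where
  le q p := Le0 q.1 p.1
  le_refl _ := LeOn.refl _ _
  le_trans _ _ _ h h' := h.trans h'

abbrev B : Type := RO Q

lemma distr : Distr Q LL := by
  intro I hI p D h1 h2
  obtain ⟨r, a1, a2, a3⟩ := distrib hI p.2 (fun i r => ∃ h : PP r, D i ⟨r, h⟩)
    (fun i r r' ⟨h, h3⟩ h4 h5 => ⟨h4, h1 i ⟨r, h⟩ ⟨r', h4⟩ h3 h5⟩) (fun i q hq h => by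
      obtain ⟨r, h3, h4⟩ := h2 i ⟨q, hq⟩ h
      exact ⟨r.1, r.2, h3, r.2, h4⟩)
  exact ⟨⟨r, a1⟩, a2, fun i => (a3 i).2⟩

instance rep_lad (w a l : Nm B) : Rep fun U : Ult B => Lad U.E (U.cl w) (U.cl a) (U.cl l) := by
  unfold Lad; infer_instance

instance rep_club (k C : Nm B) : Rep fun U : Ult B => Club U.E (U.cl k) (U.cl C) := by
  unfold Club; infer_instance

instance rep_inj (k C : Nm B) : Rep fun U : Ult B => Inj U.E (U.cl k) (U.cl C) := by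
  unfold Inj; infer_instance

instance rep_pow (k C : Nm B) : Rep fun U : Ult B => Pow U.E (U.cl k) (U.cl C) := by
  unfold Pow; infer_instance

instance rep_tail (w f l : Nm B) : Rep fun U : Ult B => TailInj U.E (U.cl w) (U.cl f) (U.cl l) := by
  unfold TailInj; infer_instance

noncomputable abbrev kN : Nm B := setN (Set.univ : Set O)

lemma lad_seqO (U : Ult B) {a : O} {l : ℕ → O} :
    Lad U.E U.om (U.cl (oN a)) (U.cl (seqO l)) ↔ Lad0 a l := by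
  constructor
  · rintro ⟨h1, h2, h3⟩
    refine ⟨fun i j h => (oN_lt U).1 (h2 _ _ _ _ (U.num_mem_num.2 h) ((ap_seqO U l i _).2 rfl)
      ((ap_seqO U l j _).2 rfl)), fun n => (oN_lt U).1 (h1.2.2 _ _ ((ap_seqO U l n _).2 rfl)),
      fun b hb => ?_⟩
    obtain ⟨i, y, h4, h5⟩ := h3 _ (oN_intro U hb)
    exact ap_elim numN (fun n => oN (l n)) _ (fun V _ y => V.E (V.cl (oN b)) y → ∃ n, b < l n)
      (fun V n _ h => ⟨n, (oN_lt V).1 h⟩) U i y h4 h5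
  · rintro ⟨h1, h2, h3⟩
    refine ⟨fn_seqO l (fun U _ y => U.E y (U.cl (oN a))) (fun V n => oN_intro V (h2 n)) U,
      fun i j x y h4 h5 h6 => ?_, oN_elim a (fun U b => ∃ i y, Ap U.E (U.cl (seqO l)) i y ∧
        U.E b y) (fun V b hb => ?_) U⟩
    · refine ap_elim numN (fun n => oN (l n)) _ (fun V i x => ∀ j y, Ap V.E (V.cl (seqO l)) j y →
        V.E i j → V.E x y) (fun V m _ => ?_) U i x h5 j y h6 h4
      exact ap_elim numN (fun n => oN (l n)) _ (fun V j y => V.E (V.num m) j →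
        V.E (V.cl (oN (l m))) y) (fun W n _ h => oN_intro W (h1 (W.num_mem_num.1 h))) V
    · obtain ⟨n, hn⟩ := h3 b hb
      exact ⟨_, _, (ap_seqO V l n _).2 rfl, oN_intro V hn⟩

lemma inj_chk {ι : Type} (A : ι → Nm B) (hA : ∀ (U : Ult B) s t, U.cl (A s) = U.cl (A t) → s = t)
    {Y : Set O} (h : #ι ≤ #Y) (U : Ult B) : Inj U.E (U.cl (lst A)) (U.cl (setN Y)) := by
  obtain ⟨f⟩ := h
  refine le_chk A (fun i => oN (f i).1) _ (fun V i => setN_intro V (f i).2) (fun V s t => ?_) U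
  rw [oN_inj]
  exact ⟨fun e => by rw [hA V s t e], fun e => by rw [f.injective (Subtype.ext e)]⟩

lemma pow_eq (U : Ult B) (a : O) {p : U.M} (h : Pow U.E (U.cl (oN a)) p) :
    p = U.cl (powN (Iio a)) :=
  U.ext' _ _ fun z => by rw [h z, mem_powN distr (mk_Iio_le a), oN_eq]

lemma pow_inj (X : Set O) (U : Ult B) (s t : Set X)
    (h : U.cl (setN (Subtype.val '' s)) = U.cl (setN (Subtype.val '' t))) : s = t :=
  Subtype.val_injective.image_injective ((setN_inj U).1 h)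

lemma arith (U : Ult B) : Arith U.E U.om (U.cl (oN lam)) (U.cl kN) := by
  refine ⟨⟨?_, ?_⟩, ?_, ?_, fun a p ha => ?_, ⟨⟨setN_trans isLowerSet_univ U, setN_tri _ U⟩, ?_⟩,
    setN_intro U trivial, ?_, fun p hp => ?_⟩
  · rw [oN_eq]; exact ⟨setN_trans (isLowerSet_Iio _) U, setN_tri _ U⟩
  · refine oN_elim lam (fun U b => ¬ Inj U.E (U.cl (oN lam)) b) (fun V b hb => ?_) U
    rw [oN_eq, oN_eq]
    exact no_inj distr (mk_Iio_le b) (by rw [mk_Lam]; exact lt_lam.mp hb) V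
  · obtain ⟨ν, w, h1, h2, h3⟩ := exists_nat
    rw [← oN_om U h2 h3]
    exact oN_intro U h1
  · obtain ⟨l, hl⟩ := lad_lam
    exact ⟨_, (lad_seqO U).2 hl⟩
  · refine oN_elim lam (fun U a => ∀ p, Pow U.E a p → ∃ b, U.E b (U.cl (oN lam)) ∧ Inj U.E p b)
      (fun V a ha p hp => ?_) U a ha p
    obtain ⟨b, h1, h2⟩ := exists_card (two_pow_lt_LL (lt_lam.mp ha))
    refine ⟨_, oN_intro V h1, ?_⟩
    rw [pow_eq V a hp, oN_eq]
    exact inj_chk _ (pow_inj _) (by rw [h2, mk_set]) V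
  · refine setN_elim _ (fun U b => ¬ Inj U.E (U.cl kN) b) (fun V b _ => ?_) U
    rw [oN_eq]
    exact no_inj distr (mk_Iio_le b)
      (by rw [mk_univ, mk_O]; exact Order.lt_succ_of_le (mk_Iio_le b)) V
  · refine setN_elim _ (fun U a => Inj U.E a (U.cl (oN lam))) (fun V a _ => ?_) U
    rw [oN_eq, oN_eq]
    exact inj_chk _ (fun W s t h => Subtype.ext ((oN_inj W).1 h))
      (by rw [mk_Lam]; exact mk_Iio_le a) V
  · rw [pow_eq U lam hp]
    constructor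
    · refine le_gen _ kN (fun z : Set Lam × O => setN (Subtype.val '' z.1)) (fun z => oN z.2)
        (fun z => gen fun p : Q => z.2 < p.1.b.γ ∧ p.1.b.g z.2 = z.1 ∧ ∀ y < z.2, p.1.b.g y ≠ z.1)
        (fun V X => ?_) (fun V s t h1 h2 => ?_) U
      · revert V
        refine all_of_dense _ (fun q => ?_)
        obtain ⟨r, a1, a2, a3⟩ := exists_g q.2 X
        have hne : {x | x < r.b.γ ∧ r.b.g x = X}.Nonempty := a3
        have a4 := wellFounded_lt.min_mem _ hne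
        refine ⟨⟨r, a1⟩, a2, fun W hW => ⟨_, setN_intro W (mem_univ (wellFounded_lt.min _ hne)),
          W.ap_grN _ _ _ (X, wellFounded_lt.min _ hne) (gen_intro (p := ⟨r, a1⟩)
            ⟨a4.1, a4.2, fun y hy e => ?_⟩ W hW)⟩⟩
        exact wellFounded_lt.not_lt_min {x | x < r.b.γ ∧ r.b.g x = X} ⟨hy.trans a4.1, e⟩ hy
      · obtain ⟨p, q, r, ⟨a1, a2, a3⟩, ⟨b1, b2, b3⟩, c1, c2⟩ := gen_two h1 h2
        rw [oN_inj]
        constructor
        · intro e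
          have e := pow_inj _ V _ _ e
          by_contra hne
          rcases lt_or_gt_of_ne hne with h | h
          · exact b3 _ h (by rw [← c2.1.2.2 _ (h.trans b1), c1.1.2.2 _ a1, a2, e])
          · exact a3 _ h (by rw [← c1.1.2.2 _ (h.trans a1), c2.1.2.2 _ b1, b2, e])
        · intro e
          rw [← a2, ← b2, ← c1.1.2.2 _ a1, ← c2.1.2.2 _ b1, e]
    · obtain ⟨f⟩ : #(Set.univ : Set O) ≤ #(Set Lam) := by rw [mk_univ, mk_set, mk_Lam]; exact O_le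
      refine le_chk _ (fun i => setN (Subtype.val '' f i)) _
        (fun V i => lst_intro V (fun Y : Set Lam => setN (Subtype.val '' Y)) (f i))
        (fun V s t => ?_) U
      rw [oN_inj]
      exact ⟨fun e => by rw [Subtype.ext e], fun e => by rw [f.injective (pow_inj _ V _ _ e)]⟩

/-- The generic stationary set. -/
noncomputable def sN : Nm B := ⟨O, oN, fun α => gen fun p : Q => α ∈ p.1.b.s⟩

lemma sN_intro {p : Q} {α : O} (h : α ∈ p.1.b.s) :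
    Fo p fun U => U.E (U.cl (oN α)) (U.cl sN) :=
  fun U hU => U.E_intro sN α (gen_intro (p := p) h U hU)

lemma sN_elim (Φ : ∀ U : Ult B, U.M → Prop) [∀ x, Rep (fun U => Φ U (U.cl x))]
    (h : ∀ p : Q, ∀ α ∈ p.1.b.s, Fo p fun U => Φ U (U.cl (oN α))) (U : Ult B) (a : U.M)
    (ha : U.E a (U.cl sN)) : Φ U a :=
  mem_elim sN Φ (fun V α hα => gen_elim _ (fun p hp => h p α hp) V hα) U a ha

lemma sN_cof (U : Ult B) (a : U.M) (ha : U.E a (U.cl sN)) :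
    U.E a (U.cl kN) ∧ ∃ l, Lad U.E U.om a l := by
  refine sN_elim (fun U a => U.E a (U.cl kN) ∧ ∃ l, Lad U.E U.om a l) (fun p α h V _ => ?_) U a ha
  obtain ⟨l, hl⟩ := (p.2.1.2 α h).2
  exact ⟨setN_intro V trivial, _, (lad_seqO V).2 hl⟩

lemma sN_stat (U : Ult B) : Stat U.E (U.cl kN) (U.cl sN) := by
  intro C hC
  obtain ⟨C, rfl⟩ := U.cl_surj C
  refine all_of_dense (fun U => Club U.E (U.cl kN) (U.cl C) →
    ∃ a, U.E a (U.cl sN) ∧ U.E a (U.cl C)) (fun p => ?_) U hC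
  obtain ⟨p0, h0, h1 | h1⟩ := decide (fun U => Club U.E (U.cl kN) (U.cl C)) p
  swap
  · exact ⟨p0, h0, fun V hV h => (h1 V hV h).elim⟩
  obtain ⟨q, a1, a2, δ, a3, γ, a4, a5⟩ := stat p0.2 (fun β r => ∃ (h : PP r) (c : O), β < c ∧
      c ≤ r.b.γ ∧ Fo (⟨r, h⟩ : Q) fun U => U.E (U.cl (oN c)) (U.cl C)) (fun β q hq h => by
    obtain ⟨r, b1, c, b2⟩ := dec_ex kN (fun U c => U.E c (U.cl C) ∧ U.E (U.cl (oN β)) c)
      (q := (⟨q, hq⟩ : Q)) fun V hV => by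
        have := h1.mono (q := ⟨q, hq⟩) h V hV
        obtain ⟨c, h2, h3⟩ := this.2.1 _ (setN_intro V (mem_univ β))
        exact ⟨c, this.1 c h2, h2, h3⟩
    obtain ⟨r', b3, b4, b5⟩ := exists_high r.2 c.1
    obtain ⟨V, hV⟩ := b2.elim
    exact ⟨r', b3, b4.trans b1, b3, c.1, (oN_lt V).1 hV.2.2, b5.le,
      fun W hW => (b2.mono (q := ⟨r', b3⟩) b4 W hW).2.1⟩)
  have hq : (⟨q, a1⟩ : Q) ≤ p0 := a2
  refine ⟨⟨q, a1⟩, hq.trans h0, fun V hV hC => ⟨_, sN_intro (p := ⟨q, a1⟩) a3 V hV,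
    hC.2.2 _ (setN_intro V trivial) ⟨_, oN_intro V (a4.2.1 0)⟩ fun b hb => ?_⟩⟩
  refine oN_elim δ (fun U b => U.P (io (⟨q, a1⟩ : Q)) → ∃ c, U.E c (U.cl C) ∧ U.E b c ∧
    U.E c (U.cl (oN δ))) (fun W b hb hW => ?_) V b hb hV
  obtain ⟨i, hi⟩ := a4.2.2 b hb
  obtain ⟨r, ⟨hr, c, c1, c2, c3⟩, c4, c5⟩ := a5 i
  exact ⟨_, c3.mono (q := ⟨q, a1⟩) c4 W hW, oN_intro W (hi.trans c1), oN_intro W (c2.trans_lt c5)⟩

/-- The generic colouring at coordinate `ξ`. -/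
noncomputable def fN (ξ : K) : Nm B :=
  grN (fun z : O × Lam => oN z.1) (fun z => oN z.2.1)
    fun z => gen fun p : Q => ξ ∈ p.1.W ∧ z.1 < p.1.b.γ ∧ p.1.F ξ z.1 = z.2

lemma fN_intro {ξ : K} {p : Q} (h : ξ ∈ p.1.W) {x : O} (hx : x < p.1.b.γ) :
    Fo p fun U => Ap U.E (U.cl (fN ξ)) (U.cl (oN x)) (U.cl (oN (p.1.F ξ x).1)) :=
  fun U hU => U.ap_grN (fun z : O × Lam => oN z.1) (fun z => oN z.2.1) _ (x, p.1.F ξ x)
    (gen_intro ⟨h, hx, rfl⟩ U hU)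

lemma fN_fn (ξ : K) (U : Ult B) :
    Fn U.E (U.cl kN) (fun _ y => U.E y (U.cl (oN lam))) (U.cl (fN ξ)) := by
  refine fn_gen (fun b : (Set.univ : Set O) => oN b.1) (fun z : O × Lam => oN z.1)
    (fun z => oN z.2.1) _ (fun U _ y => U.E y (U.cl (oN lam)))
    (fun V s _ => ⟨setN_intro V (mem_univ s.1), oN_intro V s.2.2⟩) (fun V x => ?_)
    (fun V s t h1 h2 e => ?_) U
  · revert V
    refine all_of_dense _ (fun q => ?_)
    obtain ⟨r, a1, a2, a3⟩ := exists_coord q.2 ξ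
    obtain ⟨r', a4, a5, a6⟩ := exists_high a1 x.1
    exact ⟨⟨r', a4⟩, a5.trans a2, fun W hW =>
      ⟨_, fN_intro (p := ⟨r', a4⟩) (a5.2 ξ a3 trivial).1 a6 W hW⟩⟩
  · obtain ⟨p, q, r, ⟨a1, a2, a3⟩, ⟨b1, b2, b3⟩, c1, c2⟩ := gen_two h1 h2
    rw [← a3, ← b3, ← (c1.2 ξ a1 trivial).2 _ a2, ← (c2.2 ξ b1 trivial).2 _ b2, (oN_inj V).1 e]

lemma kill (U : Ult B) (L : U.M) (hL : Fn U.E (U.cl sN) (Lad U.E U.om) L) :
    ∃ f, Fn U.E (U.cl kN) (fun _ y => U.E y (U.cl (oN lam))) f ∧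
      ∀ a l, Ap U.E L a l → TailInj U.E U.om f l := by
  obtain ⟨L, rfl⟩ := U.cl_surj L
  obtain ⟨ξ, hξ⟩ := capture (fun r α l => ∃ h : PP r, Fo (⟨r, h⟩ : Q) fun U =>
      Fn U.E (U.cl sN) (Lad U.E U.om) (U.cl L) ∧ Ap U.E (U.cl L) (U.cl (oN α)) (U.cl (seqO l)))
    (fun r r' α l h1 h2 ⟨h3, h4⟩ => ⟨h1, h4.mono (q := ⟨r', h1⟩) h2⟩)
    (fun r α l l' _ ⟨h1, h2⟩ ⟨_, h3⟩ => by
      obtain ⟨V, hV⟩ := exists_ult (⟨r, h1⟩ : Q)
      exact seqO_inj V ((h2 V hV).1.unique V.zfc (h2 V hV).2 (h3 V hV).2))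
  refine ⟨_, fN_fn ξ U, fun a l h => ?_⟩
  refine sN_elim (fun U a => Fn U.E (U.cl sN) (Lad U.E U.om) (U.cl L) →
    ∀ l, Ap U.E (U.cl L) a l → TailInj U.E U.om (U.cl (fN ξ)) l) (fun p α hα V hV h1 l h2 => ?_)
    U a (hL.dom U.zfc h) hL l h
  obtain ⟨l, rfl⟩ := V.cl_surj l
  refine Fo.of_dense (p := p) (fun U => (Fn U.E (U.cl sN) (Lad U.E U.om) (U.cl L) ∧
    Ap U.E (U.cl L) (U.cl (oN α)) (U.cl l)) → TailInj U.E U.om (U.cl (fN ξ)) (U.cl l))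
    (fun q hq => ?_) V hV ⟨h1, h2⟩
  obtain ⟨q1, a1, a2 | a2⟩ := decide (fun U => Fn U.E (U.cl sN) (Lad U.E U.om) (U.cl L) ∧
    Ap U.E (U.cl L) (U.cl (oN α)) (U.cl l)) q
  swap
  · exact ⟨q1, a1, fun W hW h => (a2 W hW h).elim⟩
  obtain ⟨q2, a3, l0, a4⟩ := dec_seq distr LL_inf (Iio α) l (q := q1) fun W hW => by
    rw [← oN_eq]; exact ((a2 W hW).1.2.2 _ _ (a2 W hW).2).1
  obtain ⟨r, a5, a6, a7⟩ := exists_coord q2.2 ξ
  have a8 : (⟨r, a5⟩ : Q) ≤ q2 := a6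
  have a9 : (⟨r, a5⟩ : Q) ≤ p := a8.trans (a3.trans (a1.trans hq))
  have hαγ := (p.2.1.2 α hα).1
  have hl0 : Lad0 α l0 := by
    obtain ⟨W, hW⟩ := exists_ult q2
    have := a2.mono a3 W hW
    exact (lad_seqO W).1 (a4 W hW ▸ this.1.2.2 _ _ this.2)
  obtain ⟨n, hn⟩ := hξ r a5 a7 α ((a9.1.2.1 α hαγ).mpr hα) l0 hl0
    ⟨a5, fun W hW => by
      have := a2.mono (a8.trans a3) W hW
      exact ⟨this.1, a4.mono a8 W hW ▸ this.2⟩⟩
  refine ⟨⟨r, a5⟩, a8.trans (a3.trans a1), fun W hW _ => ?_⟩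
  rw [a4.mono a8 W hW]
  refine ⟨_, W.num_mem_om n, fun i j x y u v b1 b2 b3 b4 => ?_⟩
  refine ap_elim numN (fun n => oN (l0 n)) _ (fun V i x => V.P (io (⟨r, a5⟩ : Q)) →
    ¬ V.E i (V.num n) → ∀ j y, Ap V.E (V.cl (seqO l0)) j y → V.E i j → ∀ u v,
      Ap V.E (V.cl (fN ξ)) x u → Ap V.E (V.cl (fN ξ)) y v → u ≠ v)
    (fun V i _ hV c1 j y c2 => ?_) W i x b3 hW b1 j y b4 b2 u v
  refine ap_elim numN (fun n => oN (l0 n)) _ (fun V j y => V.P (io (⟨r, a5⟩ : Q)) →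
    V.E (V.num i) j → ∀ u v, Ap V.E (V.cl (fN ξ)) (V.cl (oN (l0 i))) u →
      Ap V.E (V.cl (fN ξ)) y v → u ≠ v) (fun Z j _ hZ c3 u v c4 c5 e => ?_) V j y c2 hV
  have d := fun m => fN_intro (p := ⟨r, a5⟩) a7 ((hl0.2.1 m).trans_le (hαγ.trans a9.1.1)) Z hZ
  rw [(fN_fn ξ Z).unique Z.zfc c4 (d i), (fN_fn ξ Z).unique Z.zfc c5 (d j), oN_inj] at e
  exact hn i j (not_lt.mp fun h => c1 (V.num_mem_num.2 h)) (Z.num_mem_num.1 c3) (Subtype.ext e)

lemma exists_U : Nonempty (Ult B) := by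
  obtain ⟨U, -⟩ := exists_ult (⟨_, PP_base (b := ⟨lam, ∅, fun _ => ∅⟩) (fun _ h => h.elim)
    fun _ _ => Classical.arbitrary _⟩ : Q)
  exact ⟨U⟩

end Pool.Agent.MP_b3fb72_lc

end
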